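import Pool.Agent.H51.SN.Stp
import Pool.Agent.H35.SN.Defs

/-!
# H51-SN-FIN: the step theorem in the form of H35/SN/Defs
-/

set_option autoImplicit false

namespace H51.SN

theorem stpf : H35.SN.STP := fun _ _ _ hl hζ _ _ _ _ _ _ hV hV1 act irr hig φ hs hφ Q S' S'' hd hsp hal hc =>
  stp hl hζ hV hV1 act irr hig φ hs hφ Q S' S'' hd hsp hal hc

end H51.SN
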