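import Pool.Agent.H51.SN.Defs

/-!
# H51-SN-KUM: the Kummer symbol `kq`

`Ω` algebraically closed, `ζ ∈ K` a primitive root of unity of order `ℓ`; `γ x = x`. For a root `B` of `x` also `γ B` is a root, so `γ B = ζ ^ k B`; for another root `ζ ^ i B` the same `k` (`γ` fixes `ζ`).
`kq_conj`: `h B` is a root of `h x`, `(h γ h⁻¹)(h B) = h (ζ ^ k B) = ζ ^ k (h B)`. `kq_zero_pow`: a root `B` is fixed by `F.fixingSubgroup`, so it is in `F` (`Ω/K` Galois, characteristic 0). `kq_ft`: `E = K(B)`. See also `gkum_key` (H63/MA/GKum).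
-/

set_option autoImplicit false

open scoped Classical

namespace H51.SN

variable {K : Type} [Field K] [CharZero K] {Ω : Type} [Field Ω] [Algebra K Ω]
  [IsAlgClosure K Ω] {ℓ : ℕ} {ζ : K}

private theorem ex_root (K : Type) [Field K] {Ω : Type} [Field Ω] [Algebra K Ω] [IsAlgClosure K Ω] {ℓ : ℕ} (hℓ : ℓ.Prime) {x : Ω} (hx : x ≠ 0) : ∃ B : Ω, B ^ ℓ = x ∧ B ≠ 0 := by
  haveI : IsAlgClosed Ω := IsAlgClosure.isAlgClosed K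
  obtain ⟨B, hB⟩ := IsAlgClosed.exists_pow_nat_eq x hℓ.pos
  refine ⟨B, hB, ?_⟩
  rintro rfl
  rw [zero_pow hℓ.ne_zero] at hB
  exact hx hB.symm

omit [CharZero K] [IsAlgClosure K Ω] in
private theorem two_roots (hℓ : ℓ.Prime) (hζ : IsPrimitiveRoot ζ ℓ) {x B D : Ω} (hx : x ≠ 0) (hB : B ^ ℓ = x)
    (hD : D ^ ℓ = x) : ∃ i < ℓ, D = algebraMap K Ω ζ ^ i * B := by
  have hB0 : B ≠ 0 := by
    rintro rfl
    rw [zero_pow hℓ.ne_zero] at hB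
    exact hx hB.symm
  haveI : NeZero ℓ := ⟨hℓ.ne_zero⟩
  have h1 : (D / B) ^ ℓ = 1 := by
    rw [div_pow, hD, hB, div_self hx]
  obtain ⟨i, hi, h2⟩ := (hζ.map_of_injective (algebraMap K Ω).injective).eq_pow_of_pow_eq_one h1
  exact ⟨i, hi, by rw [h2, div_mul_cancel₀ _ hB0]⟩

theorem kq_is (hℓ : ℓ.Prime) (hζ : IsPrimitiveRoot ζ ℓ) {x : Ω} (hx : x ≠ 0) {γ : Gal(Ω/K)}
    (hγ : γ x = x) : IsK ℓ ζ x γ (kq ℓ ζ x γ) := by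
  haveI : NeZero ℓ := ⟨hℓ.ne_zero⟩
  have hex : ∃ a, IsK ℓ ζ x γ a := by
    obtain ⟨B, hB, -⟩ := ex_root K hℓ hx
    obtain ⟨i, hi, h1⟩ := two_roots hℓ hζ hx hB (D := γ B) (by rw [← map_pow, hB, hγ])
    refine ⟨(i : ZMod ℓ), fun D hD => ?_⟩
    obtain ⟨j, -, h2⟩ := two_roots hℓ hζ hx hB hD
    rw [ZMod.val_cast_of_lt hi, h2, map_mul, map_pow, AlgEquiv.commutes, h1]
    ring
  unfold kq
  rw [dif_pos hex]
  exact hex.choose_spec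

/-- computation of the symbol by one root -/
theorem kq_eq_nat (hℓ : ℓ.Prime) (hζ : IsPrimitiveRoot ζ ℓ) {x : Ω} (hx : x ≠ 0) {γ : Gal(Ω/K)}
    (hγ : γ x = x) (i : ℕ) {B : Ω} (hB : B ^ ℓ = x)
    (h : γ B = algebraMap K Ω ζ ^ i * B) : kq ℓ ζ x γ = (i : ZMod ℓ) := by
  haveI : NeZero ℓ := ⟨hℓ.ne_zero⟩
  have hB0 : B ≠ 0 := by
    rintro rfl
    rw [zero_pow hℓ.ne_zero] at hB
    exact hx hB.symm
  have hz : IsPrimitiveRoot (algebraMap K Ω ζ) ℓ := hζ.map_of_injective (algebraMap K Ω).injective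
  have h1 := kq_is hℓ hζ hx hγ B hB
  rw [h] at h1
  have h2 := mul_right_cancel₀ hB0 h1
  rw [pow_eq_pow_mod i hz.pow_eq_one] at h2
  have h3 := hz.pow_inj (Nat.mod_lt _ hℓ.pos) (ZMod.val_lt _) h2
  apply ZMod.val_injective ℓ
  rw [ZMod.val_natCast, h3]

theorem kq_eq (hℓ : ℓ.Prime) (hζ : IsPrimitiveRoot ζ ℓ) {x : Ω} (hx : x ≠ 0) {γ : Gal(Ω/K)}
    (hγ : γ x = x) (a : ZMod ℓ) {B : Ω} (hB : B ^ ℓ = x)
    (h : γ B = algebraMap K Ω ζ ^ a.val * B) : kq ℓ ζ x γ = a := by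
  haveI : NeZero ℓ := ⟨hℓ.ne_zero⟩
  rw [kq_eq_nat hℓ hζ hx hγ a.val hB h, ZMod.natCast_zmod_val]

theorem kq_arg (hℓ : ℓ.Prime) (hζ : IsPrimitiveRoot ζ ℓ) {x y : Ω} (hx : x ≠ 0) (hy : y ≠ 0)
    {γ : Gal(Ω/K)} (hγ : γ x = x) (hγ' : γ y = y) :
    kq ℓ ζ (x * y) γ = kq ℓ ζ x γ + kq ℓ ζ y γ := by
  haveI : NeZero ℓ := ⟨hℓ.ne_zero⟩
  obtain ⟨B, hB, -⟩ := ex_root K hℓ hx
  obtain ⟨D, hD, -⟩ := ex_root K hℓ hy
  have h1 := kq_is hℓ hζ hx hγ B hB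
  have h2 := kq_is hℓ hζ hy hγ' D hD
  rw [kq_eq_nat hℓ hζ (mul_ne_zero hx hy) (by rw [map_mul, hγ, hγ']) ((kq ℓ ζ x γ).val + (kq ℓ ζ y γ).val)
    (B := B * D) (by rw [mul_pow, hB, hD]) (by rw [map_mul, h1, h2, pow_add]; ring), Nat.cast_add,
    ZMod.natCast_zmod_val, ZMod.natCast_zmod_val]

theorem kq_pow (hℓ : ℓ.Prime) (hζ : IsPrimitiveRoot ζ ℓ) {y : Ω} (hy : y ≠ 0) {γ : Gal(Ω/K)}
    (hγ : γ y = y) : kq ℓ ζ (y ^ ℓ) γ = 0 := by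
  rw [kq_eq_nat hℓ hζ (pow_ne_zero ℓ hy) (by rw [map_pow, hγ]) 0 (B := y) rfl (by rw [hγ, pow_zero, one_mul]),
    Nat.cast_zero]

private theorem kq_one (hℓ : ℓ.Prime) (hζ : IsPrimitiveRoot ζ ℓ) (γ : Gal(Ω/K)) : kq ℓ ζ (1 : Ω) γ = 0 := by
  rw [kq_eq_nat hℓ hζ one_ne_zero (map_one γ) 0 (B := 1) (one_pow ℓ) (by rw [map_one, pow_zero, one_mul]),
    Nat.cast_zero]

theorem kq_npow (hℓ : ℓ.Prime) (hζ : IsPrimitiveRoot ζ ℓ) {y : Ω} (hy : y ≠ 0) {γ : Gal(Ω/K)}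
    (hγ : γ y = y) (n : ℕ) : kq ℓ ζ (y ^ n) γ = n • kq ℓ ζ y γ := by
  induction n with
  | zero => rw [pow_zero, zero_smul, kq_one hℓ hζ]
  | succ n ih => rw [pow_succ, kq_arg hℓ hζ (pow_ne_zero n hy) hy (by rw [map_pow, hγ]) hγ, ih, succ_nsmul]

theorem kq_prod (hℓ : ℓ.Prime) (hζ : IsPrimitiveRoot ζ ℓ) {ι : Type} (s : Finset ι) (y : ι → Ω)
    (hy : ∀ i ∈ s, y i ≠ 0) {γ : Gal(Ω/K)} (hγ : ∀ i ∈ s, γ (y i) = y i) :
    kq ℓ ζ (∏ i ∈ s, y i) γ = ∑ i ∈ s, kq ℓ ζ (y i) γ := by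
  induction s using Finset.induction_on with
  | empty => rw [Finset.prod_empty, Finset.sum_empty, kq_one hℓ hζ]
  | insert a s ha ih =>
    have h1 : ∀ i ∈ s, y i ≠ 0 := fun i hi => hy i (Finset.mem_insert_of_mem hi)
    have h2 : ∀ i ∈ s, γ (y i) = y i := fun i hi => hγ i (Finset.mem_insert_of_mem hi)
    rw [Finset.prod_insert ha, Finset.sum_insert ha, kq_arg hℓ hζ (hy a (Finset.mem_insert_self _ _))
      (Finset.prod_ne_zero_iff.2 h1) (hγ a (Finset.mem_insert_self _ _))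
      (by rw [map_prod]; exact Finset.prod_congr rfl h2), ih h1 h2]

theorem kq_mul (hℓ : ℓ.Prime) (hζ : IsPrimitiveRoot ζ ℓ) {x : Ω} (hx : x ≠ 0)
    {γ δ : Gal(Ω/K)} (hγ : γ x = x) (hδ : δ x = x) :
    kq ℓ ζ x (γ * δ) = kq ℓ ζ x γ + kq ℓ ζ x δ := by
  haveI : NeZero ℓ := ⟨hℓ.ne_zero⟩
  obtain ⟨B, hB, -⟩ := ex_root K hℓ hx
  have h1 := kq_is hℓ hζ hx hγ B hB
  have h2 := kq_is hℓ hζ hx hδ B hB
  rw [kq_eq_nat hℓ hζ hx (by rw [AlgEquiv.mul_apply, hδ, hγ]) ((kq ℓ ζ x γ).val + (kq ℓ ζ x δ).val) hB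
    (by rw [AlgEquiv.mul_apply, h2, map_mul, map_pow, AlgEquiv.commutes, h1, pow_add]; ring), Nat.cast_add,
    ZMod.natCast_zmod_val, ZMod.natCast_zmod_val]

theorem kq_conj (hℓ : ℓ.Prime) (hζ : IsPrimitiveRoot ζ ℓ) {x : Ω} (hx : x ≠ 0)
    {γ : Gal(Ω/K)} (hγ : γ x = x) (h : Gal(Ω/K)) :
    kq ℓ ζ (h x) (h * γ * h⁻¹) = kq ℓ ζ x γ := by
  haveI : NeZero ℓ := ⟨hℓ.ne_zero⟩
  obtain ⟨B, hB, -⟩ := ex_root K hℓ hx
  have h1 := kq_is hℓ hζ hx hγ B hB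
  have hc : ∀ y : Ω, (h * γ * h⁻¹) (h y) = h (γ y) := by
    intro y
    have h2 : h⁻¹ (h y) = y := by
      rw [← AlgEquiv.mul_apply, inv_mul_cancel, AlgEquiv.one_apply]
    rw [AlgEquiv.mul_apply, AlgEquiv.mul_apply, h2]
  exact kq_eq hℓ hζ ((map_ne_zero h).2 hx) (by rw [hc, hγ]) _ (B := h B) (by rw [← map_pow, hB])
    (by rw [hc, h1, map_mul, map_pow, AlgEquiv.commutes])

theorem kq_zero_pow (hℓ : ℓ.Prime) (hζ : IsPrimitiveRoot ζ ℓ) (F : IntermediateField K Ω)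
    (x : F) (hx : x ≠ 0) (h : ∀ γ ∈ F.fixingSubgroup, kq ℓ ζ (x : Ω) γ = 0) :
    ∃ y : F, y ^ ℓ = x := by
  haveI : NeZero ℓ := ⟨hℓ.ne_zero⟩
  haveI : IsGalois K Ω := IsAlgClosure.isGalois K Ω
  have hx' : (x : Ω) ≠ 0 := fun h0 => hx (Subtype.ext h0)
  obtain ⟨B, hB, -⟩ := ex_root K hℓ hx'
  have hBF : B ∈ F := by
    rw [← InfiniteGalois.fixedField_fixingSubgroup F]
    rintro ⟨γ, hγ⟩
    have hγx : γ (x : Ω) = x := (IntermediateField.mem_fixingSubgroup_iff F γ).1 hγ x x.2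
    have h1 := kq_is hℓ hζ hx' hγx B hB
    rw [h γ hγ, ZMod.val_zero, pow_zero, one_mul] at h1
    exact h1
  exact ⟨⟨B, hBF⟩, Subtype.ext hB⟩

theorem kq_ft (hℓ : ℓ.Prime) (hζ : IsPrimitiveRoot ζ ℓ) {x : Ω} (hx : x ≠ 0) :
    ∃ E : IntermediateField K Ω, FiniteDimensional K E ∧
      ∀ γ ∈ E.fixingSubgroup, γ x = x ∧ kq ℓ ζ x γ = 0 := by
  obtain ⟨B, hB, -⟩ := ex_root K hℓ hx
  have halg : Algebra.IsAlgebraic K Ω := IsAlgClosure.isAlgebraic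
  refine ⟨IntermediateField.adjoin K {B},
    IntermediateField.adjoin.finiteDimensional (halg.isAlgebraic B).isIntegral, fun γ hγ => ?_⟩
  have h1 : γ B = B := (IntermediateField.mem_fixingSubgroup_iff _ γ).1 hγ B
    (IntermediateField.mem_adjoin_simple_self K B)
  have h2 : γ x = x := by rw [← hB, map_pow, h1]
  exact ⟨h2, by
    rw [kq_eq_nat hℓ hζ hx h2 0 hB (by rw [h1, pow_zero, one_mul]), Nat.cast_zero]⟩

end H51.SN
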