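import Pool.Agent.H51.SN.Defs
import Pool.Agent.H88.LH.Cjp

/-!
# H51-SN-PLC: the fixed field, its automorphisms and its primes

`exists_act`: `F` = the fixed field of `θ.ker`; `θ.ker` is normal of finite index, closed (`FT`), so `F/K` is finite Galois, `F.fixingSubgroup = θ.ker` (`InfiniteGalois.fixingSubgroup_fixedField` or `H38.ML.factor`); for `a = θ γ` let `act a` = the restriction of `γ` to `F` (independent of `γ`: two choices differ by an element of `θ.ker`).
`plc_und`: the primes `pm (act a) (wp F Q v)` are over `v` (`act a` is the identity on `K`).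
`plc_inj`: if `pm (act a) (wp F Q v) = pm (act b) (wp F Q v')` then `v = v'` (`plc_und`), `a = θ γ`, `b = θ γ'`: the primes `γ (Q.P v)`, `γ' (Q.P v)` of `𝓞 QBar` have the same restriction to `F`, so `δ γ (Q.P v) = γ' (Q.P v)` for some `δ` in `F.fixingSubgroup`
(transitivity of `Gal(QBar/F)` on the primes over `w`: grep exists_smul_of_under_eq, `Algebra.IsInvariant`, or the proofs about `dec` in H77, H97, H57); so `γ'⁻¹ δ γ ∈ dec (Q.P v)`, `θ = 1` there: `b⁻¹ a = 1`.
`plc_inr`: `a = θ γ`, `P' = γ⁻¹ (Q.P v)` is a prime over `pm (act a)⁻¹ (wp F Q v)`; this is only needed in the form: for `τ` in the inertia group of `Q.P v`, `γ⁻¹ τ γ` is in the inertia group of `P'` and `P'.under (𝓞 F) = (pm (act a⁻¹) (wp F Q v)).asIdeal`.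
-/

set_option autoImplicit false

open scoped NumberField Classical
open IsDedekindDomain H63.MA H38.ML H67.AQ

namespace H51.SN

variable {K : IntermediateField ℚ QBar} [NumberField K] {A : Type} [Group A]

theorem exists_act (θ : Gal(QBar/K) →* A) (hθ : FT θ) (hs : Function.Surjective θ) :
    ∃ (F : IntermediateField K QBar) (act : A →* (F ≃+* F)), Acts F θ act := by
  obtain ⟨M, hM, hG, e, he, h⟩ := factor θ hθ
  have hes : Function.Surjective e := by
    intro a
    obtain ⟨γ, rfl⟩ := hs a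
    exact ⟨_, h γ⟩
  let E : Gal(M/K) ≃* A := MulEquiv.ofBijective e ⟨he, hes⟩
  let r : Gal(M/K) →* (M ≃+* M) :=
    { toFun := fun g => g.toRingEquiv
      map_one' := rfl
      map_mul' := fun _ _ => rfl }
  refine ⟨M, r.comp E.symm.toMonoidHom, ⟨hM, ?_, ?_⟩⟩
  · rw [← IntermediateField.restrictNormalHom_ker M]
    ext σ
    have h0 : σ ∈ (AlgEquiv.restrictNormalHom M : Gal(QBar/K) →* Gal(M/K)).ker ↔
        res M σ = 1 := Iff.rfl
    rw [h0, MonoidHom.mem_ker, ← h σ]
    constructor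
    · intro h1
      rw [h1, map_one]
    · intro h1
      exact he (h1.trans (map_one e).symm)
  · intro γ x
    have h1 : E.symm (θ γ) = res M γ := by
      rw [MulEquiv.symm_apply_eq]
      exact (h γ).symm
    show (((E.symm (θ γ) : Gal(M/K)) x : M) : QBar) = γ x
    rw [h1]
    exact AlgEquiv.restrictNormal_commutes γ M x

variable {F : IntermediateField K QBar} [NumberField F] {θ : Gal(QBar/K) →* A}
  {act : A →* (F ≃+* F)}

omit [NumberField K] [NumberField F] in
private theorem act_inv (H : Acts F θ act) (γ : Gal(QBar/K)) (x : F) :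
    (((act (θ γ)).symm x : F) : QBar) = γ⁻¹ (x : QBar) := by
  rw [← H.act γ⁻¹ x, map_inv, map_inv]
  rfl

/-- the primes `pm (act a) (wp F Q v)` are the restrictions of the primes `γ (Q.P v)` -/
theorem plc_pm (H : Acts F θ act) (Q : DP K QBar) (v : Pl K) (γ : Gal(QBar/K)) :
    (pm (act (θ γ)) (wp F Q v)).asIdeal = (H88.LH.cjI γ (Q.P v)).under (𝓞 F) := by
  ext x
  rw [Ideal.mem_comap, H88.LH.mem_cjI]
  have h1 : algebraMap (𝓞 F) (𝓞 QBar)
      ((NumberField.RingOfIntegers.mapRingEquiv (act (θ γ))).symm x) =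
      γ⁻¹ • algebraMap (𝓞 F) (𝓞 QBar) x := by
    apply NumberField.RingOfIntegers.ext
    exact act_inv H γ (x : F)
  rw [← h1]
  exact Iff.rfl

theorem plc_und (H : Acts F θ act) (hs : Function.Surjective θ) (Q : DP K QBar) (v : Pl K)
    (a : A) : (pm (act a) (wp F Q v)).asIdeal.under (𝓞 K) = v.asIdeal := by
  obtain ⟨γ, rfl⟩ := hs a
  rw [plc_pm H, ← Q.under v, ← H88.LH.cjI_under γ]
  exact Ideal.ext fun a => Iff.rfl

theorem plc_inj (H : Acts F θ act) (hs : Function.Surjective θ) (Q : DP K QBar) (v v' : Pl K)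
    (hv : ∀ σ ∈ dec (K := K) (Q.P v), θ σ = 1) (a b : A)
    (h : pm (act a) (wp F Q v) = pm (act b) (wp F Q v')) : a = b ∧ v = v' := by
  have hvv : v = v' := by
    apply HeightOneSpectrum.ext
    rw [← plc_und H hs Q v a, ← plc_und H hs Q v' b, h]
  subst hvv
  refine ⟨?_, rfl⟩
  obtain ⟨γ, rfl⟩ := hs a
  obtain ⟨γ', rfl⟩ := hs b
  have h1 : (H88.LH.cjI γ (Q.P v)).under (𝓞 F) = (H88.LH.cjI γ' (Q.P v)).under (𝓞 F) := by
    rw [← plc_pm H, ← plc_pm H, h]
  have halg : Algebra.IsAlgebraic F QBar := Algebra.IsAlgebraic.tower_top (K := K) F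
  have hcl : IsAlgClosure F QBar := ⟨inferInstance, halg⟩
  obtain ⟨δ, hδ⟩ := H88.LH.cjI_ex (K := F) (v := pm (act (θ γ)) (wp F Q v))
    (H88.LH.cjI_prime γ (Q.prime v)) (H88.LH.cjI_prime γ' (Q.prime v)) (plc_pm H Q v γ).symm
    (h1.symm.trans (plc_pm H Q v γ).symm)
  have hker : δ.restrictScalars K ∈ θ.ker := by
    rw [← H.fix, IntermediateField.mem_fixingSubgroup_iff]
    intro x hx
    exact δ.commutes (⟨x, hx⟩ : F)
  have hsm : ∀ x : 𝓞 QBar, δ⁻¹ • x = (δ.restrictScalars K)⁻¹ • x := fun x => rfl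
  have hdec : γ'⁻¹ * δ.restrictScalars K * γ ∈ dec (K := K) (Q.P v) := by
    intro x
    have h2 : (δ.restrictScalars K * γ) • x ∈ H88.LH.cjI γ' (Q.P v) ↔
        (γ'⁻¹ * δ.restrictScalars K * γ) • x ∈ Q.P v := by
      rw [H88.LH.mem_cjI, smul_smul, mul_assoc]
    rw [← h2, hδ, H88.LH.mem_cjI, hsm, H88.LH.mem_cjI, smul_smul, smul_smul]
    have h3 : γ⁻¹ * (δ.restrictScalars K)⁻¹ * (δ.restrictScalars K * γ) = 1 := by group
    rw [h3, one_smul]
  have h4 := hv _ hdec
  rw [map_mul, map_mul, hker, mul_one, map_inv, inv_mul_eq_one] at h4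
  exact h4.symm

end H51.SN
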