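import Pool.Agent.H77.AQ.Bas
import Pool.Agent.H63.MA.ClFin

/-!
# H51-SN-DEFS: the step theorem (MP_b39724_nt, think 1906, SN+), definitions

`K` a number field in `QBar`, `Q : DP K QBar` a choice of primes over the places of `K`, `dec (Q.P v)` the decomposition group, `(Q.P v).inertia` the inertia group.

* `IdM n c`: `∑ c a • a` is idempotent in `(ℤ / n)[A]`.
* `pm e w`: the prime `e w` of `F` for an automorphism `e` of `F`. `ax act a x`: `a x` on `Fˣ`.
* `IsK`, `kq`: the Kummer symbol `γ(B) = ζ ^ (kq x γ) B` for `B ^ ℓ = x`, `γ x = x`.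
* `Acts F θ act`: `F` is the fixed field of the kernel of `θ : Γ → A` and `act` the action of `A` on `F`.
* `wp F Q v`: the prime of `F` under `Q.P v`.
* `IsA M θ κ`: `κ : Γ → M` is an equivariant homomorphism on the kernel of `θ : Γ → A`.
* `Ag M`: the group of automorphisms of the normal subgroup `M` of `G` which are given by conjugation with elements of `G`.
* `Prj M`: `M` (commutative) is relatively projective: there is `θ : M → M` with `∏ a θ(a⁻¹ m) = m` (`a` in `Ag M`).
* `StD ℓ M`: the step condition: `M ≤ G` normal, commutative, of exponent `ℓ`, minimal, `Prj M`, with a complement.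
-/

set_option autoImplicit false

open scoped NumberField
open IsDedekindDomain H38.ML Filter Topology
open scoped Classical

noncomputable section

namespace H51.SN

open H63.MA H67.AQ

section alg

variable {A : Type} [Group A] [Fintype A]

/-- `c` is idempotent in the group ring of `A` over `ℤ / n` -/
def IdM (n : ℕ) (c : A → ℤ) : Prop := ∀ b : A, (n : ℤ) ∣ (∑ a, c a * c (a⁻¹ * b)) - c b

end alg

section nf

variable {F : Type} [Field F] [NumberField F] {A : Type} [Group A]

/-- the prime `e w` -/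
def pm (e : F ≃+* F) : Pl F ≃ Pl F :=
  HeightOneSpectrum.equivOfRingEquiv (NumberField.RingOfIntegers.mapRingEquiv e)

/-- the action on the units -/
def ax (act : A →* (F ≃+* F)) (a : A) : Fˣ →* Fˣ := Units.map ((act a : F →+* F) : F →* F)

end nf

section kum

variable {K : Type} [Field K] {Ω : Type} [Field Ω] [Algebra K Ω]

/-- `γ(B) = ζ ^ a B` for all roots `B` of `x` -/
def IsK (ℓ : ℕ) (ζ : K) (x : Ω) (γ : Gal(Ω/K)) (a : ZMod ℓ) : Prop :=
  ∀ B : Ω, B ^ ℓ = x → γ B = algebraMap K Ω ζ ^ a.val * B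

/-- the Kummer symbol -/
def kq (ℓ : ℕ) (ζ : K) (x : Ω) (γ : Gal(Ω/K)) : ZMod ℓ :=
  if h : ∃ a, IsK ℓ ζ x γ a then h.choose else 0

end kum

section act

variable {K : IntermediateField ℚ QBar} [NumberField K] {A : Type} [Group A]

/-- `F` is the fixed field of the kernel of `θ`, with the action of `A` -/
structure Acts (F : IntermediateField K QBar) (θ : Gal(QBar/K) →* A) (act : A →* (F ≃+* F)) :
    Prop where
  fin : FiniteDimensional K F
  fix : F.fixingSubgroup = θ.ker
  act : ∀ (γ : Gal(QBar/K)) (x : F), ((act (θ γ) x : F) : QBar) = γ (x : QBar)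

/-- the prime of `F` under `Q.P v` -/
def wp (F : IntermediateField K QBar) [NumberField F] (Q : DP K QBar) (v : Pl K) : Pl F :=
  ⟨(Q.P v).under (𝓞 F), (Q.prime v).comap _, by
    intro h
    apply v.ne_bot
    have hover : ((Q.P v).under (𝓞 F)).comap (algebraMap (𝓞 K) (𝓞 F)) = v.asIdeal := by
      rw [← Q.under v]
      exact Ideal.ext fun a => Iff.rfl
    rw [← hover, h, ← RingHom.ker_eq_comap_bot]
    exact (RingHom.injective_iff_ker_eq_bot _).mp
      (NumberField.RingOfIntegers.algebraMap.injective K F)⟩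

end act

/-- equivariant homomorphisms on the kernel of `θ` -/
structure IsA {Γ : Type} [Group Γ] {A : Type} [Group A] {M : Type} [AddCommGroup M]
    [DistribMulAction A M] (θ : Γ →* A) (κ : Γ → M) : Prop where
  add : ∀ γ δ, θ γ = 1 → θ δ = 1 → κ (γ * δ) = κ γ + κ δ
  eqv : ∀ h γ, θ γ = 1 → κ (h * γ * h⁻¹) = θ h • κ γ

section grp

variable {G : Type} [Group G]

/-- the group of automorphisms of `M` given by `G` -/
abbrev Ag (M : Subgroup G) [M.Normal] : Subgroup (MulAut M) :=
  (MulAut.conjNormal : G →* MulAut M).range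

/-- `M` is relatively projective -/
def Prj (M : Subgroup G) [M.Normal] : Prop :=
  ∃ (θ : M →* M) (l : List (Ag M)), l.Nodup ∧ (∀ a, a ∈ l) ∧
    ∀ m : M, (l.map fun a => a.1 (θ (a.1⁻¹ m))).prod = m

/-- the step condition -/
structure StD (ℓ : ℕ) (M : Subgroup G) [M.Normal] : Prop where
  pr : ℓ.Prime
  com : ∀ x ∈ M, ∀ y ∈ M, x * y = y * x
  exp : ∀ x ∈ M, x ^ ℓ = 1
  ne : M ≠ ⊥
  irr : ∀ N : Subgroup G, N.Normal → N ≤ M → N = ⊥ ∨ N = M
  prj : Prj M
  cmp : ∃ C : Subgroup G, C ⊓ M = ⊥ ∧ C ⊔ M = ⊤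

end grp

end H51.SN
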