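import Pool.Agent.H51.SN.Alg1
import Pool.Agent.H51.SN.Defs

/-!
# H51-SN-NFT: the number field theorem

`ord_pm`: `ord (pm e w) (e x) = ord w x`. `nft`: see the statement (`w i`: primes, one in each of `s` free orbits of `A`; `Lc`: `#Z < 2 ^ s` local conditions); `y` is a unit outside the orbits.

PROOF of `nft`. `U` = the subgroup of `Fˣ` of the `x` with `ord u x = 0` for all `u` which are not of the form `pm (act a) (w i)` (take `Additive` of it). `Y = Fin s → A → ℤ`, `dv x i a = ord (pm (act a) (w i)) x`. There is `m ≠ 0` such that `m • Y` is in the range of `dv`: each prime has a power which is principal (class group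
finite, `m` = class number; a generator of `w ^ m` has `ord = m` at `w`, `0` elsewhere). `c` from `hcl (ℓ * m)`. `e f i a = ∑ b, c b * f i (b⁻¹ a)` on `Y`, `eU x = ∏ b, (ax act b x) ^ c b` on `U` (`U` is stable); `dv (eU x) = e (dv x)` by `ord_pm` (`ord (pm (act a) w) (b x) = ord (pm (act (b⁻¹ a)) w) x`).
`he`: `e (e f) - e f = ∑ b, (c * c - c)(b) f i (b⁻¹ a)`, divisible by `ℓ m` (`IdM`), so `ℓ • (m • g)`. `f T i a = 1` if `i ∈ T` and `a = 1`, else `0`: `e (f T) i a = c a` if `i ∈ T`, else `0`; `c a ≠ 0` modulo `ℓ` for some `a` (`hc0`). `L` = `Lc` on `U`. `alg1` gives `u`, `y = eU u`.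
Last property: `∏ a, (ax act a y) ^ (cb a).val = e y` up to `ℓ`-th powers, `= e (e u) = e u` up to `ℓ`-th powers (`IdM`).
-/

set_option autoImplicit false

open scoped NumberField Classical
open IsDedekindDomain H63.MA

namespace H51.SN

variable {F : Type} [Field F] [NumberField F] {A : Type} [Group A]

/-- exponents of integers -/
private theorem ord_int_le (v : Pl F) (x : Fˣ) (a : 𝓞 F) (h : (x : F) = algebraMap (𝓞 F) F a)
    (n : ℕ) : (n : ℤ) ≤ ord v x ↔ a ∈ v.asIdeal ^ n := by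
  have h2 : v.valuation F (x : F) = v.intValuation a := by
    rw [h]
    exact v.valuation_of_algebraMap a
  rw [← HeightOneSpectrum.intValuation_le_pow_iff_mem, ← h2, val_eq, WithZero.exp_le_exp,
    neg_le_neg_iff]

private theorem ord_int_nonneg (v : Pl F) (x : Fˣ) (a : 𝓞 F)
    (h : (x : F) = algebraMap (𝓞 F) F a) : 0 ≤ ord v x := by
  have h1 := (ord_int_le v x a h 0).2 (by rw [pow_zero, Ideal.one_eq_top]; exact Submodule.mem_top)
  simpa using h1

private theorem ord_int_eq {v v' : Pl F} {x x' : Fˣ} {a a' : 𝓞 F}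
    (h : (x : F) = algebraMap (𝓞 F) F a) (h' : (x' : F) = algebraMap (𝓞 F) F a')
    (hn : ∀ n : ℕ, a ∈ v.asIdeal ^ n ↔ a' ∈ v'.asIdeal ^ n) : ord v x = ord v' x' := by
  obtain ⟨m, hm⟩ := Int.eq_ofNat_of_zero_le (ord_int_nonneg v x a h)
  obtain ⟨m', hm'⟩ := Int.eq_ofNat_of_zero_le (ord_int_nonneg v' x' a' h')
  have h1 := (ord_int_le v' x' a' h' m).2 ((hn m).1 ((ord_int_le v x a h m).1 hm.ge))
  have h2 := (ord_int_le v x a h m').2 ((hn m').2 ((ord_int_le v' x' a' h' m').1 hm'.ge))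
  omega

theorem ord_pm (e : F ≃+* F) (w : Pl F) (x : Fˣ) :
    ord (pm e w) (Units.map ((e : F →+* F) : F →* F) x) = ord w x := by
  obtain ⟨r, hr⟩ : ∃ r : 𝓞 F ≃+* 𝓞 F, r = NumberField.RingOfIntegers.mapRingEquiv e := ⟨_, rfl⟩
  have hre : ∀ z : 𝓞 F, algebraMap (𝓞 F) F (r z) = e (algebraMap (𝓞 F) F z) := by
    intro z
    rw [hr]
    rfl
  have hI : (pm e w).asIdeal = w.asIdeal.comap (r.symm : 𝓞 F →+* 𝓞 F) := by
    rw [hr]
    rfl
  have hpow : ∀ (n : ℕ) (z : 𝓞 F), r z ∈ (pm e w).asIdeal ^ n ↔ z ∈ w.asIdeal ^ n := by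
    intro n z
    have h1 : ∀ J : Ideal (𝓞 F), J.comap (r.symm : 𝓞 F →+* 𝓞 F) = J.map (r : 𝓞 F →+* 𝓞 F) :=
      fun J => Ideal.comap_symm r
    rw [hI, h1, ← Ideal.map_pow, ← h1, Ideal.mem_comap]
    have h2 : (r.symm : 𝓞 F →+* 𝓞 F) (r z) = z := r.symm_apply_apply z
    rw [h2]
  have key : ∀ (y : Fˣ) (z : 𝓞 F), (y : F) = algebraMap (𝓞 F) F z →
      ord (pm e w) (Units.map ((e : F →+* F) : F →* F) y) = ord w y := by
    intro y z hyz
    refine ord_int_eq (a := r z) (a' := z) ?_ hyz (fun n => hpow n z)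
    rw [hre, ← hyz]
    rfl
  obtain ⟨a, b, ha, hb, hab⟩ := exists_int x
  have ha' : algebraMap (𝓞 F) F a ≠ 0 := by
    rw [Ne, FaithfulSMul.algebraMap_eq_zero_iff]
    exact ha
  have hb' : algebraMap (𝓞 F) F b ≠ 0 := by
    rw [Ne, FaithfulSMul.algebraMap_eq_zero_iff]
    exact hb
  have hx : x = Units.mk0 _ ha' * (Units.mk0 _ hb')⁻¹ := by
    apply Units.ext
    rw [hab, Units.val_mul, Units.val_inv_eq_inv_val, Units.val_mk0, Units.val_mk0,
      div_eq_mul_inv]
  rw [hx, map_mul, map_inv, ord_mul, ord_mul, ord_inv, ord_inv,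
    key (Units.mk0 _ ha') a rfl, key (Units.mk0 _ hb') b rfl]

private theorem pm_mul (e e' : F ≃+* F) (w : Pl F) : pm (e * e') w = pm e (pm e' w) :=
  HeightOneSpectrum.ext (Ideal.ext fun _ => Iff.rfl)

private theorem pm_act (act : A →* (F ≃+* F)) (a b : A) (w : Pl F) :
    pm (act a) w = pm (act b) (pm (act (b⁻¹ * a)) w) := by
  rw [← pm_mul, ← map_mul, mul_inv_cancel_left]

/-- the order of a conjugate -/
private theorem ord_ax (act : A →* (F ≃+* F)) (a b : A) (w : Pl F) (x : Fˣ) :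
    ord (pm (act a) w) (ax act b x) = ord (pm (act (b⁻¹ * a)) w) x := by
  rw [pm_act act a b w]
  exact ord_pm (act b) _ x

/-- a power of a prime is principal -/
private theorem prin (F : Type) [Field F] [NumberField F] : ∃ m : ℕ, m ≠ 0 ∧ ∀ v : Pl F,
    ∃ g : Fˣ, ord v g = m ∧ ∀ u, u ≠ v → ord u g = 0 := by
  refine ⟨Fintype.card (ClassGroup (𝓞 F)), Fintype.card_ne_zero, fun v => ?_⟩
  obtain ⟨m, hm⟩ : ∃ m, m = Fintype.card (ClassGroup (𝓞 F)) := ⟨_, rfl⟩
  rw [← hm]
  have hv0 : v.asIdeal ∈ nonZeroDivisors (Ideal (𝓞 F)) := mem_nonZeroDivisors_of_ne_zero v.ne_bot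
  have h1 : (ClassGroup.mk0 ⟨v.asIdeal, hv0⟩) ^ m = 1 := by
    rw [hm]
    exact pow_card_eq_one
  rw [← map_pow, SubmonoidClass.mk_pow, ClassGroup.mk0_eq_one_iff] at h1
  obtain ⟨g, hg⟩ := h1.principal
  rw [Ideal.submodule_span_eq] at hg
  have hg0 : g ≠ 0 := by
    intro h
    rw [h, Ideal.span_singleton_eq_bot.2 rfl] at hg
    exact pow_ne_zero m v.ne_bot hg
  have hgF : algebraMap (𝓞 F) F g ≠ 0 := by
    rw [Ne, FaithfulSMul.algebraMap_eq_zero_iff]
    exact hg0
  have hmem : ∀ (u : Pl F) (n : ℕ), g ∈ u.asIdeal ^ n ↔ u.asIdeal ^ n ∣ v.asIdeal ^ m := by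
    intro u n
    rw [hg, Ideal.dvd_span_singleton]
  have hle := fun (u : Pl F) (n : ℕ) => ord_int_le u (Units.mk0 _ hgF) g rfl n
  refine ⟨Units.mk0 _ hgF, ?_, fun u hu => ?_⟩
  · have h2 : (m : ℤ) ≤ ord v (Units.mk0 _ hgF) := (hle v m).2 ((hmem v m).2 dvd_rfl)
    have h3 : ¬ ((m + 1 : ℕ) : ℤ) ≤ ord v (Units.mk0 _ hgF) := by
      intro h
      have h4 := (hmem v (m + 1)).1 ((hle v (m + 1)).1 h)
      have h5 := (pow_dvd_pow_iff v.ne_bot (fun h => v.isPrime.ne_top (by
        rw [Ideal.isUnit_iff] at h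
        exact h))).1 h4
      omega
    push_cast at h3
    omega
  · have h2 : 0 ≤ ord u (Units.mk0 _ hgF) := ord_int_nonneg u _ g rfl
    have h3 : ¬ ((1 : ℕ) : ℤ) ≤ ord u (Units.mk0 _ hgF) := by
      intro h
      have h4 := (hmem u 1).1 ((hle u 1).1 h)
      rw [pow_one] at h4
      have h5 := (Ideal.prime_of_isPrime u.ne_bot u.isPrime).dvd_of_dvd_pow h4
      have h6 : v.asIdeal ≤ u.asIdeal := Ideal.dvd_iff_le.1 h5
      have h7 := v.isMaximal.eq_of_le u.isPrime.ne_top h6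
      exact hu (HeightOneSpectrum.ext h7.symm)
    push_cast at h3
    omega

/-- the element of the group ring acting on a module -/
private noncomputable def EE [Fintype A] {V : Type} [AddCommGroup V] (ρ : A → V →+ V) (c : A → ℤ) : V →+ V :=
  AddMonoidHom.mk' (fun x => ∑ b, c b • ρ b x) (by
    intro x y
    simp only [map_add, smul_add, Finset.sum_add_distrib])

private theorem EE_apply [Fintype A] {V : Type} [AddCommGroup V] (ρ : A → V →+ V) (c : A → ℤ)
    (x : V) : EE ρ c x = ∑ b, c b • ρ b x := rfl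

/-- convolution -/
private theorem EE_EE [Fintype A] {V : Type} [AddCommGroup V] (ρ : A → V →+ V)
    (hρ : ∀ a b x, ρ (a * b) x = ρ a (ρ b x)) (c k : A → ℤ) (n : ℤ)
    (h : ∀ b, (∑ a, c a * c (a⁻¹ * b)) - c b = n * k b) (x : V) :
    EE ρ c (EE ρ c x) - EE ρ c x = n • EE ρ k x := by
  have h1 : EE ρ c (EE ρ c x) = ∑ d, (∑ b, c b * c (b⁻¹ * d)) • ρ d x := by
    rw [EE_apply]
    have h2 : ∀ b, c b • ρ b (EE ρ c x) = ∑ d, (c b * c (b⁻¹ * d)) • ρ d x := by
      intro b
      rw [EE_apply, map_sum, Finset.smul_sum]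
      refine Fintype.sum_equiv (Equiv.mulLeft b) _ _ fun b' => ?_
      rw [Equiv.coe_mulLeft, inv_mul_cancel_left, map_zsmul, hρ, mul_smul]
    rw [Finset.sum_congr rfl fun b _ => h2 b, Finset.sum_comm]
    refine Finset.sum_congr rfl fun d _ => ?_
    rw [Finset.sum_smul]
  rw [h1, EE_apply, EE_apply, ← Finset.sum_sub_distrib, Finset.smul_sum]
  refine Finset.sum_congr rfl fun d _ => ?_
  rw [← sub_smul, h d, mul_smul]

private theorem EE_add [Fintype A] {V : Type} [AddCommGroup V] (ρ : A → V →+ V)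
    (c d t : A → ℤ) (n : ℤ) (h : ∀ a, d a = c a + n * t a) (x : V) :
    EE ρ d x = EE ρ c x + n • EE ρ t x := by
  rw [EE_apply, EE_apply, EE_apply, Finset.smul_sum, ← Finset.sum_add_distrib]
  refine Finset.sum_congr rfl fun a _ => ?_
  rw [h a, add_smul, mul_smul]

/-- the order as an additive map -/
private noncomputable def odA (u : Pl F) : Additive Fˣ →+ ℤ :=
  AddMonoidHom.mk' (fun x => ord u x.toMul) (fun x y => ord_mul u x.toMul y.toMul)

/-- the action in additive form -/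
private noncomputable def rF (act : A →* (F ≃+* F)) (a : A) : Additive Fˣ →+ Additive Fˣ :=
  MonoidHom.toAdditive (ax act a)

private theorem rF_mul (act : A →* (F ≃+* F)) (a b : A) (x : Additive Fˣ) :
    rF act (a * b) x = rF act a (rF act b x) := by
  have h : ax act (a * b) x.toMul = ax act a (ax act b x.toMul) := by
    apply Units.ext
    change (act (a * b)) _ = act a (act b _)
    rw [map_mul]
    rfl
  exact congrArg Additive.ofMul h

private theorem odA_rF (act : A →* (F ≃+* F)) (a b : A) (w : Pl F) (x : Additive Fˣ) :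
    odA (pm (act a) w) (rF act b x) = odA (pm (act (b⁻¹ * a)) w) x :=
  ord_ax act a b w x.toMul

/-- the action on functions -/
private noncomputable def rY (s : ℕ) (b : A) : (Fin s → A → ℤ) →+ (Fin s → A → ℤ) :=
  AddMonoidHom.mk' (fun f i a => f i (b⁻¹ * a)) (fun _ _ => rfl)

private theorem rY_mul (s : ℕ) (a b : A) (f : Fin s → A → ℤ) :
    rY s (a * b) f = rY s a (rY s b f) := by
  funext i d
  change f i ((a * b)⁻¹ * d) = f i (b⁻¹ * (a⁻¹ * d))
  rw [mul_inv_rev, mul_assoc]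

private theorem EEY_apply [Fintype A] {s : ℕ} (c : A → ℤ) (f : Fin s → A → ℤ) (i : Fin s)
    (a : A) : EE (rY s) c f i a = ∑ b, c b * f i (b⁻¹ * a) := by
  rw [EE_apply, Finset.sum_apply, Finset.sum_apply]
  rfl

private theorem fin_quot [Fintype A] (s n : ℕ) (hn : n ≠ 0) :
    Finite ((Fin s → A → ℤ) ⧸ (nsmulAddMonoidHom (α := Fin s → A → ℤ) n).range) := by
  have hz : NeZero n := ⟨hn⟩
  refine Finite.of_injective (β := Fin s → A → ZMod n) (fun q i a => ((q.out i a : ℤ) : ZMod n)) ?_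
  intro q q' hqq
  have h1 : ∀ i a, (n : ℤ) ∣ q'.out i a - q.out i a := by
    intro i a
    have h2 := congrFun (congrFun hqq i) a
    exact (ZMod.intCast_eq_intCast_iff_dvd_sub _ _ _).1 h2
  choose z hz using h1
  have h3 : - q.out + q'.out ∈ (nsmulAddMonoidHom (α := Fin s → A → ℤ) n).range := by
    refine ⟨z, ?_⟩
    funext i a
    have h4 := hz i a
    change (n • z) i a = (- q.out + q'.out) i a
    rw [Pi.smul_apply, Pi.smul_apply, nsmul_eq_mul, Pi.add_apply, Pi.add_apply, Pi.neg_apply,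
      Pi.neg_apply, ← h4]
    ring
  have h5 := QuotientAddGroup.eq.2 h3
  rw [← QuotientAddGroup.out_eq' q, ← QuotientAddGroup.out_eq' q']
  exact h5

theorem nft [Fintype A] (act : A →* (F ≃+* F)) {ℓ : ℕ} (hℓ : ℓ.Prime) (cb : A → ZMod ℓ)
    (hc0 : ∃ a, cb a ≠ 0)
    (hcl : ∀ n : ℕ, n ≠ 0 → ∃ c : A → ℤ, IdM n c ∧ ∀ a, (c a : ZMod ℓ) = cb a) {s : ℕ}
    (w : Fin s → Pl F)
    (hw : ∀ (a b : A) (i j : Fin s), pm (act a) (w i) = pm (act b) (w j) → a = b ∧ i = j)
    {Z : Type} [AddCommGroup Z] [Finite Z] (hZ : ∀ z : Z, ℓ • z = 0)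
    (Lc : Fˣ →* Multiplicative Z) (hlt : Nat.card Z < 2 ^ s) :
    ∃ y : Fˣ, (∀ u : Pl F, (∀ a i, u ≠ pm (act a) (w i)) → ord u y = 0) ∧ Lc y = 1 ∧
      ¬ IsPow ℓ y ∧ ∃ z : Fˣ, ∏ a, ax act a y ^ (cb a).val = y * z ^ ℓ := by
  have hl0 : ℓ ≠ 0 := hℓ.ne_zero
  obtain ⟨m, hm, hg⟩ := prin F
  choose g hg1 hg2 using hg
  obtain ⟨c, hc, hcc⟩ := hcl (ℓ * m) (mul_ne_zero hl0 hm)
  choose k hk using hc
  -- the units
  let U : AddSubgroup (Additive Fˣ) :=
    { carrier := {x | ∀ u : Pl F, (∀ a i, u ≠ pm (act a) (w i)) → odA u x = 0}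
      zero_mem' := fun u _ => map_zero _
      add_mem' := fun {x y} hx hy u hu => by rw [map_add, hx u hu, hy u hu, add_zero]
      neg_mem' := fun {x} hx u hu => by rw [map_neg, hx u hu, neg_zero] }
  have memU : ∀ x : Additive Fˣ,
      x ∈ U ↔ ∀ u : Pl F, (∀ a i, u ≠ pm (act a) (w i)) → odA u x = 0 := fun x => Iff.rfl
  have hEU : ∀ x ∈ U, EE (rF act) c x ∈ U := by
    intro x hx u hu
    rw [EE_apply, map_sum]
    refine Finset.sum_eq_zero fun b _ => ?_
    have h1 : u = pm (act 1) u := by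
      rw [map_one]
      exact HeightOneSpectrum.ext (Ideal.ext fun _ => Iff.rfl)
    rw [map_zsmul, h1, odA_rF, mul_one, hx, smul_zero]
    intro a i hui
    apply hu (b * a) i
    rw [pm_act act (b * a) b, inv_mul_cancel_left, ← hui, ← pm_mul, ← map_mul,
      mul_inv_cancel, ← h1]
  let eU : U →+ U := ((EE (rF act) c).comp U.subtype).codRestrict U (fun x => hEU x x.2)
  let dv : U →+ (Fin s → A → ℤ) :=
    AddMonoidHom.mk' (fun x i a => odA (pm (act a) (w i)) (x : Additive Fˣ)) (by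
      intro x y
      funext i a
      change odA _ ((x : Additive Fˣ) + (y : Additive Fˣ)) = _
      rw [map_add]
      rfl)
  have hdv : ∀ (x : U) i a, dv x i a = odA (pm (act a) (w i)) (x : Additive Fˣ) :=
    fun _ _ _ => rfl
  have heU : ∀ x : U, ((eU x : U) : Additive Fˣ) = EE (rF act) c (x : Additive Fˣ) := fun _ => rfl
  have hde : ∀ u, dv (eU u) = EE (rY s) c (dv u) := by
    intro u
    funext i a
    rw [hdv, heU, EEY_apply, EE_apply, map_sum]
    refine Finset.sum_congr rfl fun b _ => ?_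
    rw [map_zsmul, odA_rF, hdv, smul_eq_mul]
  have hmX : ∀ y : Fin s → A → ℤ, ∃ u, m • y = dv u := by
    intro y
    have h1 : (∑ i, ∑ a, y i a • Additive.ofMul (g (pm (act a) (w i)))) ∈ U := by
      intro u hu
      rw [map_sum]
      refine Finset.sum_eq_zero fun i _ => ?_
      rw [map_sum]
      refine Finset.sum_eq_zero fun a _ => ?_
      rw [map_zsmul]
      have h2 : odA u (Additive.ofMul (g (pm (act a) (w i)))) = 0 := hg2 _ u (hu a i)
      rw [h2, smul_zero]
    refine ⟨⟨_, h1⟩, ?_⟩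
    funext i a
    rw [hdv]
    change (m • y) i a = odA (pm (act a) (w i))
      (∑ i, ∑ a, y i a • Additive.ofMul (g (pm (act a) (w i))))
    rw [map_sum, Finset.sum_eq_single i, map_sum, Finset.sum_eq_single a]
    · rw [map_zsmul]
      have h2 : odA (pm (act a) (w i)) (Additive.ofMul (g (pm (act a) (w i)))) = m := hg1 _
      rw [h2, Pi.smul_apply, Pi.smul_apply, nsmul_eq_mul, smul_eq_mul, mul_comm]
    · intro b _ hb
      rw [map_zsmul]
      have h2 : odA (pm (act a) (w i)) (Additive.ofMul (g (pm (act b) (w i)))) = 0 :=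
        hg2 _ _ fun h => hb (hw a b i i h).1.symm
      rw [h2, smul_zero]
    · intro h
      exact absurd (Finset.mem_univ _) h
    · intro j _ hj
      rw [map_sum]
      refine Finset.sum_eq_zero fun b _ => ?_
      rw [map_zsmul]
      have h2 : odA (pm (act a) (w i)) (Additive.ofMul (g (pm (act b) (w j)))) = 0 :=
        hg2 _ _ fun h => hj (hw a b i j h).2.symm
      rw [h2, smul_zero]
    · intro h
      exact absurd (Finset.mem_univ _) h
  have he : ∀ y, ∃ u, EE (rY s) c (EE (rY s) c y) - EE (rY s) c y = ℓ • dv u := by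
    intro y
    obtain ⟨u, hu⟩ := hmX (EE (rY s) k y)
    refine ⟨u, ?_⟩
    rw [EE_EE (rY s) (rY_mul s) c k ((ℓ * m : ℕ) : ℤ) hk y, ← hu, natCast_zsmul, mul_smul]
  have hinj : ∀ y : Fin s → A → ℤ, ℓ • y = 0 → y = 0 := by
    intro y hy
    funext i a
    have h1 := congrFun (congrFun hy i) a
    rw [Pi.smul_apply, Pi.smul_apply, nsmul_eq_mul] at h1
    have h2 : ((ℓ : ℤ)) ≠ 0 := by exact_mod_cast hl0
    exact (mul_eq_zero.1 h1).resolve_left h2
  let f : Finset (Fin s) → (Fin s → A → ℤ) := fun T i a => if i ∈ T ∧ a = 1 then 1 else 0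
  have hf : ∀ T i a, EE (rY s) c (f T) i a = if i ∈ T then c a else 0 := by
    intro T i a
    rw [EEY_apply, Finset.sum_eq_single a]
    · by_cases hi : i ∈ T
      · rw [if_pos hi]
        change c a * (if i ∈ T ∧ a⁻¹ * a = 1 then 1 else 0) = c a
        rw [if_pos ⟨hi, inv_mul_cancel a⟩, mul_one]
      · rw [if_neg hi]
        change c a * (if i ∈ T ∧ a⁻¹ * a = 1 then 1 else 0) = 0
        rw [if_neg (fun h => hi h.1), mul_zero]
    · intro b _ hb
      change c b * (if i ∈ T ∧ b⁻¹ * a = 1 then 1 else 0) = 0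
      rw [if_neg, mul_zero]
      rintro ⟨-, h⟩
      exact hb (inv_mul_eq_one.1 h)
    · intro h
      exact absurd (Finset.mem_univ _) h
  obtain ⟨a0, ha0⟩ := hc0
  have hca : ¬ (ℓ : ℤ) ∣ c a0 := by
    intro h
    apply ha0
    rw [← hcc, ZMod.intCast_zmod_eq_zero_iff_dvd]
    exact h
  have hb : ∀ T T' y, EE (rY s) c (f T) - EE (rY s) c (f T') = ℓ • y → T = T' := by
    intro T T' y hy
    ext i
    have h1 := congrFun (congrFun hy i) a0
    rw [Pi.sub_apply, Pi.sub_apply, hf, hf, Pi.smul_apply, Pi.smul_apply, nsmul_eq_mul] at h1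
    by_cases hi : i ∈ T <;> by_cases hi' : i ∈ T'
    · exact iff_of_true hi hi'
    · rw [if_pos hi, if_neg hi', sub_zero] at h1
      exact absurd ⟨_, h1⟩ hca
    · rw [if_neg hi, if_pos hi', zero_sub] at h1
      exact absurd (dvd_neg.1 ⟨_, h1⟩) hca
    · exact iff_of_false hi hi'
  let L : U →+ Z := AddMonoidHom.mk' (fun x => (Lc (x : Additive Fˣ).toMul).toAdd) (by
    intro x y
    have h1 : Lc (((x + y : U) : Additive Fˣ)).toMul =
        Lc (x : Additive Fˣ).toMul * Lc (y : Additive Fˣ).toMul := map_mul Lc _ _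
    change (Lc (((x + y : U) : Additive Fˣ)).toMul).toAdd = _
    rw [h1]
    rfl)
  obtain ⟨u, hu1, hu2⟩ := alg1 hinj dv eU (EE (rY s) c) hde he m hm hmX
    (fin_quot s (ℓ * m) (mul_ne_zero hl0 hm)) f hb L hlt
  have hyU : ((eU u : U) : Additive Fˣ) ∈ U := (eU u).2
  obtain ⟨y, hy⟩ : ∃ y : Fˣ, Additive.ofMul y = ((eU u : U) : Additive Fˣ) := ⟨_, rfl⟩
  refine ⟨y, fun v hv => ?_, ?_, ?_, ?_⟩
  · have h1 := hyU v hv
    rw [← hy] at h1
    exact h1
  · have h1 : (Lc y).toAdd = 0 := by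
      have h2 : L (eU u) = (Lc (((eU u : U) : Additive Fˣ)).toMul).toAdd := rfl
      rw [h2, ← hy] at hu1
      exact hu1
    exact Multiplicative.toAdd.injective h1
  · rintro ⟨z, hz⟩
    have hzU : Additive.ofMul z ∈ U := by
      intro v hv
      have h1 := hyU v hv
      rw [← hy] at h1
      have h2 : ord v y = 0 := h1
      rw [← hz, ord_pow] at h2
      have h3 : ((ℓ : ℤ)) ≠ 0 := by exact_mod_cast hl0
      exact (mul_eq_zero.1 h2).resolve_left h3
    refine hu2 ⟨Additive.ofMul z, hzU⟩ (Subtype.ext ?_)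
    rw [← hy, ← hz]
    rfl
  · have h0 : ∀ a, (ℓ : ℤ) ∣ ((cb a).val : ℤ) - c a := by
      intro a
      have hz : NeZero ℓ := ⟨hl0⟩
      rw [← ZMod.intCast_zmod_eq_zero_iff_dvd]
      push_cast
      rw [ZMod.natCast_zmod_val, hcc, sub_self]
    choose t ht using h0
    have h1 : EE (rF act) c (EE (rF act) c (u : Additive Fˣ)) =
        EE (rF act) c (u : Additive Fˣ) +
          ℓ • (m • EE (rF act) k (u : Additive Fˣ)) := by
      have h2 := EE_EE (rF act) (rF_mul act) c k ((ℓ * m : ℕ) : ℤ) hk (u : Additive Fˣ)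
      rw [natCast_zsmul, mul_smul] at h2
      rw [← h2]
      abel
    have h3 : EE (rF act) (fun a => ((cb a).val : ℤ)) (Additive.ofMul y) =
        EE (rF act) c (Additive.ofMul y) + ℓ • EE (rF act) t (Additive.ofMul y) := by
      have h4 : ∀ a, ((cb a).val : ℤ) = c a + ℓ * t a := by
        intro a
        have := ht a
        linarith
      rw [EE_add (rF act) c (fun a => ((cb a).val : ℤ)) t ℓ h4, natCast_zsmul]
    have h5 : EE (rF act) (fun a => ((cb a).val : ℤ)) (Additive.ofMul y) =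
        Additive.ofMul y + ℓ • (m • EE (rF act) k (u : Additive Fˣ) +
          EE (rF act) t (Additive.ofMul y)) := by
      rw [h3]
      have h6 : EE (rF act) c (Additive.ofMul y) = Additive.ofMul y +
          ℓ • (m • EE (rF act) k (u : Additive Fˣ)) := by
        rw [hy, heU]
        exact h1
      rw [h6, nsmul_add, add_assoc]
    refine ⟨(m • EE (rF act) k (u : Additive Fˣ) + EE (rF act) t (Additive.ofMul y)).toMul, ?_⟩
    have h7 : Additive.ofMul (∏ a, ax act a y ^ (cb a).val) =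
        EE (rF act) (fun a => ((cb a).val : ℤ)) (Additive.ofMul y) := by
      rw [EE_apply, ofMul_prod]
      refine Finset.sum_congr rfl fun a _ => ?_
      rw [natCast_zsmul]
      rfl
    apply Additive.ofMul.injective
    rw [h7, h5]
    rfl

end H51.SN
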