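import Pool.Agent.H51.SN.Defs

/-!
# H51-SN-COC: extension of an equivariant homomorphism to a cocycle (corestriction)

PROOF. `t : A → Γ` a section of `θ`. `κ' g = ∑ a, a • θM (κ ((t a)⁻¹ * g * t ((θ g)⁻¹ * a)))`. Cocycle: `(t a)⁻¹ g h t((θ (g h))⁻¹ a) = ((t a)⁻¹ g t(b)) ((t b)⁻¹ h t((θ h)⁻¹ b))`, `b = (θ g)⁻¹ a`, both factors in `ker θ`; `a = θ g * b` and reindex the second sum by `b`. For `γ` in `ker θ`:
`κ ((t a)⁻¹ γ (t a)) = a⁻¹ • κ γ` (`IsA.eqv` with `h = (t a)⁻¹`), so `κ' γ = ∑ a • θM (a⁻¹ • κ γ) = κ γ`.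
-/

set_option autoImplicit false

open scoped Classical

namespace H51.SN

theorem coc {Γ : Type} [Group Γ] {A : Type} [Group A] [Fintype A] {M : Type} [AddCommGroup M]
    [DistribMulAction A M] (θM : M →+ M) (hθM : ∀ m, ∑ a : A, a • θM (a⁻¹ • m) = m)
    (θ : Γ →* A) (hs : Function.Surjective θ) (κ : Γ → M) (hκ : IsA θ κ) :
    ∃ κ' : Γ → M, (∀ g h, κ' (g * h) = κ' g + θ g • κ' h) ∧ ∀ γ, θ γ = 1 → κ' γ = κ γ := by
  choose t ht using hs
  refine ⟨fun g => ∑ a : A, a • θM (κ ((t a)⁻¹ * g * t ((θ g)⁻¹ * a))), ?_, ?_⟩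
  · intro g h
    have hsplit : ∀ a : A, κ ((t a)⁻¹ * (g * h) * t ((θ (g * h))⁻¹ * a)) =
        κ ((t a)⁻¹ * g * t ((θ g)⁻¹ * a)) +
          κ ((t ((θ g)⁻¹ * a))⁻¹ * h * t ((θ h)⁻¹ * ((θ g)⁻¹ * a))) := by
      intro a
      rw [← hκ.add]
      · congr 1
        rw [map_mul, mul_inv_rev, mul_assoc (θ h)⁻¹]
        group
      · rw [map_mul, map_mul, map_inv, ht, ht]
        group
      · rw [map_mul, map_mul, map_inv, ht, ht]
        group
    simp only [hsplit, map_add, smul_add, Finset.sum_add_distrib]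
    congr 1
    rw [Finset.smul_sum]
    refine Fintype.sum_equiv (Equiv.mulLeft (θ g)⁻¹) _ _ fun a => ?_
    simp only [Equiv.coe_mulLeft]
    rw [← mul_smul, mul_inv_cancel_left]
  · intro γ hγ
    have h1 : ∀ a : A, κ ((t a)⁻¹ * γ * t ((θ γ)⁻¹ * a)) = a⁻¹ • κ γ := by
      intro a
      rw [hγ, inv_one, one_mul]
      have := hκ.eqv (t a)⁻¹ γ hγ
      rw [inv_inv, map_inv, ht] at this
      exact this
    simp only [h1]
    exact hθM (κ γ)

end H51.SN
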