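import Pool.Agent.H51.SN.Kum

/-!
# H51-SN-UNR: the Kummer symbol on inertia groups

PROOF. `ord w x = 0`: `x = a / b`, `a b : 𝓞 F` outside `w` (as in `H63/MA/GLoc.lean`; grep ord, valuation, exists a b). So `x = b⁻¹ ^ ℓ * (a * b ^ (ℓ - 1))`. Let `β : 𝓞 QBar` be a root of `a * b ^ (ℓ - 1)`: `β ∉ P` (`P ∩ 𝓞 F = w`), and `B = β / b` is a
root of `x`. `τ` fixes `F`; `τ β = ζ ^ k β` with `k = (kq x τ).val`, so `ℓ ∣ k` by `H38.ML.pow_eq_one_of_inertia` (`ℓ ∉ P`).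
-/

set_option autoImplicit false

open scoped NumberField Classical
open IsDedekindDomain H63.MA H38.ML

namespace H51.SN

variable {K : IntermediateField ℚ QBar} [NumberField K] {ℓ : ℕ} {ζ : K}

theorem unr (hℓ : ℓ.Prime) (hζ : IsPrimitiveRoot ζ ℓ) (F : IntermediateField K QBar)
    [NumberField F] (P : Ideal (𝓞 QBar)) (hP : P.IsPrime) (w : Pl F)
    (hw : P.under (𝓞 F) = w.asIdeal) (hℓP : ((ℓ : ℕ) : 𝓞 QBar) ∉ P) (x : Fˣ)
    (hx : ord w x = 0) (τ : Gal(QBar/K)) (hτ : τ ∈ P.inertia Gal(QBar/K))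
    (hτF : τ ∈ F.fixingSubgroup) : kq ℓ ζ (((x : F)) : QBar) τ = 0 := by
  have := hP
  have hx0 : (((x : F)) : QBar) ≠ 0 := by
    intro h
    exact x.ne_zero (Subtype.ext h)
  have hfix : ∀ y : F, τ (y : QBar) = (y : QBar) := fun y => hτF y
  have hod : H38.TD.od w x = 0 := by
    rw [← ord_eq_od]
    exact hx
  obtain ⟨a, c, ha, hc, hac⟩ := H38.TD.exists_int_div w x hod
  obtain ⟨B, hB⟩ := IsAlgClosed.exists_pow_nat_eq (((x : F)) : QBar) hℓ.pos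
  have hk := kq_is hℓ hζ hx0 (hfix x) B hB
  obtain ⟨k, hkd⟩ : ∃ k, k = (kq ℓ ζ (((x : F)) : QBar) τ).val := ⟨_, rfl⟩
  rw [← hkd] at hk
  have hacQ : (((x : F)) : QBar) * (((c : F)) : QBar) = (((a : F)) : QBar) := by
    have h1 := congrArg (fun y : F => (y : QBar)) hac
    simpa using h1
  obtain ⟨C, hC⟩ : ∃ C : QBar, C = (((c : F)) : QBar) * B := ⟨_, rfl⟩
  have hCp : C ^ ℓ = ((((c ^ (ℓ - 1) * a : 𝓞 F) : F)) : QBar) := by
    have e1 : (((c ^ (ℓ - 1) * a : 𝓞 F) : F)) = (c : F) ^ (ℓ - 1) * (a : F) := by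
      push_cast
      rfl
    have e2 : ((((c : F) ^ (ℓ - 1) * (a : F) : F)) : QBar) =
        (((c : F)) : QBar) ^ (ℓ - 1) * (((a : F)) : QBar) := by
      push_cast
      rfl
    rw [hC, mul_pow, hB, e1, e2, ← hacQ]
    obtain ⟨r, hr⟩ : ∃ r, ℓ = r + 1 := ⟨ℓ - 1, by have := hℓ.pos; omega⟩
    rw [hr, Nat.add_sub_cancel, pow_succ]
    ring
  have hint : IsIntegral ℤ C := by
    refine IsIntegral.of_pow hℓ.pos ?_
    rw [hCp]
    exact (NumberField.RingOfIntegers.isIntegral_coe (c ^ (ℓ - 1) * a)).algebraMap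
  obtain ⟨C', hC'⟩ : ∃ C' : 𝓞 QBar, (C' : QBar) = C := ⟨⟨C, hint⟩, rfl⟩
  have hC'n : C' ∉ P := by
    intro hmem
    have h1 : C' ^ ℓ ∈ P := Ideal.pow_mem_of_mem P hmem ℓ hℓ.pos
    have h2 : C' ^ ℓ = algebraMap (𝓞 F) (𝓞 QBar) (c ^ (ℓ - 1) * a) := by
      apply NumberField.RingOfIntegers.ext
      have h3 : ((C' ^ ℓ : 𝓞 QBar) : QBar) = (C' : QBar) ^ ℓ := by
        push_cast
        rfl
      rw [h3, hC', hCp]
      rfl
    rw [h2, ← Ideal.mem_under, hw] at h1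
    rcases w.isPrime.mem_or_mem h1 with h3 | h3
    · exact hc (w.isPrime.mem_of_pow_mem _ h3)
    · exact ha h3
  have hτC : τ (C' : QBar) = algebraMap K QBar ζ ^ k * (C' : QBar) := by
    rw [hC', hC, map_mul, hfix, hk]
    ring
  have hd : ℓ ∣ k := H38.ML.pow_eq_one_of_inertia P ℓ hℓ.pos hℓP ζ hζ τ hτ C' hC'n k hτC
  have : NeZero ℓ := ⟨hℓ.ne_zero⟩
  have hlt : k < ℓ := by
    rw [hkd]
    exact ZMod.val_lt _
  have hk0 : k = 0 := Nat.eq_zero_of_dvd_of_lt hd hlt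
  rw [hk0] at hkd
  exact (ZMod.val_eq_zero _).1 hkd.symm

end H51.SN
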