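import Pool.Agent.H51.SN.Defs

/-!
# H51-SN-LFT: lifting an idempotent of `𝔽_ℓ[A]` to `ℤ[A]`, idempotent modulo `n`

PROOF. `n = ℓ ^ k n'`, `n'` prime to `ℓ`; enlarge `k` so that `1 ≤ k`. In `R = MonoidAlgebra ℤ A`: take any lift `e₀` of `cb`; `e₀² - e₀ ∈ ℓ R`. If `e² - e ∈ ℓ ^ j R`, `1 ≤ j`, then `e' = 3 e² - 2 e³` has `e' - e ∈ ℓ ^ j R` and
`e'² - e' = (4 e² - 4 e - 3)(e² - e)² ∈ ℓ ^ (2 j) R` (check with `ring`-like identities in the commutative subring generated by `e`; or use `exists_isIdempotentElem_eq_of_ker_isNilpotent` for the ring hom `MonoidAlgebra (ZMod (ℓ ^ k)) A → MonoidAlgebra (ZMod ℓ) A`). So there is `e` with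
`e² - e ∈ ℓ ^ k R`, `e = e₀` modulo `ℓ`. Let `t` be an integer, `t = 1` modulo `ℓ ^ k`, `t = 0` modulo `n'` (Chinese remainder theorem). `c = t e`: `c² - c = t² (e² - e) + (t² - t) e`, divisible by `ℓ ^ k` and by `n'`, so by `n`.
The coefficient of `e²` at `b` is `∑ a, e a * e (a⁻¹ b)`.
-/

set_option autoImplicit false

open scoped Classical

namespace H51.SN

private theorem newton_id {R : Type} [Ring R] (e : R) :
    (3 * e ^ 2 - 2 * e ^ 3) * (3 * e ^ 2 - 2 * e ^ 3) - (3 * e ^ 2 - 2 * e ^ 3)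
      = (4 * e ^ 2 - 4 * e - 3) * ((e * e - e) * (e * e - e)) := by
  noncomm_ring

private theorem newton_id2 {R : Type} [Ring R] (e : R) :
    (3 * e ^ 2 - 2 * e ^ 3) - e = (1 - 2 * e) * (e * e - e) := by
  noncomm_ring

private theorem lift_pow {R : Type} [Ring R] (l : ℤ) (e0 : R) (h0 : ∃ r : R, e0 * e0 - e0 = l • r)
    (m : ℕ) : ∃ e r s : R, e * e - e = (l ^ (m + 1)) • r ∧ e - e0 = l • s := by
  induction m with
  | zero =>
    obtain ⟨r, hr⟩ := h0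
    exact ⟨e0, r, 0, by simpa using hr, by simp⟩
  | succ m ih =>
    obtain ⟨e, r, s, h1, h2⟩ := ih
    refine ⟨3 * e ^ 2 - 2 * e ^ 3, (4 * e ^ 2 - 4 * e - 3) * (l ^ m • (r * r)),
      (1 - 2 * e) * (l ^ m • r) + s, ?_, ?_⟩
    · rw [newton_id, h1, smul_mul_smul_comm, mul_smul_comm, mul_smul_comm, ← mul_smul]
      have : l ^ (m + 1) * l ^ (m + 1) = l ^ (m + 1 + 1) * l ^ m := by ring
      rw [this]
    · have h3 : (3 * e ^ 2 - 2 * e ^ 3) - e0 = ((3 * e ^ 2 - 2 * e ^ 3) - e) + (e - e0) := by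
        abel
      rw [h3, newton_id2, h1, h2, smul_add, mul_smul_comm, mul_smul_comm, ← mul_smul]
      have : l ^ (m + 1) = l * l ^ m := by ring
      rw [this]

private theorem coeff_mul' {A : Type} [Group A] [Fintype A] (x y : MonoidAlgebra ℤ A) (b : A) :
    (x * y).coeff b = ∑ a, x.coeff a * y.coeff (a⁻¹ * b) := by
  rw [MonoidAlgebra.coeff_mul_apply_left, Finsupp.sum_fintype _ _ (fun i => by simp)]

private theorem exists_smul {A : Type} [Group A] [Fintype A] (x : MonoidAlgebra ℤ A) (z : ℤ)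
    (h : ∀ b, z ∣ x.coeff b) : ∃ r : MonoidAlgebra ℤ A, x = z • r := by
  choose g hg using h
  refine ⟨MonoidAlgebra.ofCoeff (Finsupp.equivFunOnFinite.symm g), ?_⟩
  apply MonoidAlgebra.coeff_injective
  ext b
  rw [MonoidAlgebra.coeff_smul, Finsupp.smul_apply, hg b]
  simp

theorem lft {ℓ : ℕ} (hℓ : ℓ.Prime) {A : Type} [Group A] [Fintype A] (cb : A → ZMod ℓ)
    (hc : ∀ b : A, ∑ a, cb a * cb (a⁻¹ * b) = cb b) (n : ℕ) (hn : n ≠ 0) :
    ∃ c : A → ℤ, IdM n c ∧ ∀ a, (c a : ZMod ℓ) = cb a := by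
  choose g hg using fun a => ZMod.intCast_surjective (cb a)
  set e0 : MonoidAlgebra ℤ A := MonoidAlgebra.ofCoeff (Finsupp.equivFunOnFinite.symm g) with he0
  have hcoe : ∀ b, e0.coeff b = g b := fun b => by simp [he0]
  have h0 : ∃ r : MonoidAlgebra ℤ A, e0 * e0 - e0 = (ℓ : ℤ) • r := by
    apply exists_smul
    intro b
    rw [MonoidAlgebra.coeff_sub, Finsupp.sub_apply, coeff_mul', hcoe]
    rw [← ZMod.intCast_zmod_eq_zero_iff_dvd _ ℓ]
    push_cast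
    simp only [hcoe, hg, hc, sub_self]
  obtain ⟨k0, n', hn', hnn⟩ := Nat.exists_eq_pow_mul_and_not_dvd hn ℓ hℓ.ne_one
  obtain ⟨e, r, s, h1, h2⟩ := lift_pow (ℓ : ℤ) e0 h0 k0
  have hcop : Nat.Coprime (ℓ ^ (k0 + 1)) n' := ((hℓ.coprime_iff_not_dvd).mpr hn').pow_left _
  obtain ⟨t, ht1, ht2⟩ := Nat.chineseRemainder hcop 1 0
  have ht3 : (n' : ℤ) ∣ (t : ℤ) := by
    have := (Nat.modEq_zero_iff_dvd).mp ht2
    exact_mod_cast this
  have ht4 : ((ℓ : ℤ) ^ (k0 + 1)) ∣ (t : ℤ) - 1 := by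
    have := (Nat.modEq_iff_dvd).mp ht1.symm
    push_cast at this
    exact this
  obtain ⟨u, hu⟩ := ht3
  obtain ⟨w, hw⟩ := ht4
  refine ⟨fun a => (t : ℤ) * e.coeff a, ?_, ?_⟩
  · intro b
    have hb : (∑ a, e.coeff a * e.coeff (a⁻¹ * b)) - e.coeff b = (ℓ : ℤ) ^ (k0 + 1) * r.coeff b := by
      have := congrArg (fun x : MonoidAlgebra ℤ A => x.coeff b) h1
      simp only [MonoidAlgebra.coeff_sub, Finsupp.sub_apply, MonoidAlgebra.coeff_smul,
        Finsupp.smul_apply, smul_eq_mul] at this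
      rw [coeff_mul'] at this
      exact this
    have hs : ∑ a, ((t : ℤ) * e.coeff a) * ((t : ℤ) * e.coeff (a⁻¹ * b))
        = (t : ℤ) * t * ∑ a, e.coeff a * e.coeff (a⁻¹ * b) := by
      rw [Finset.mul_sum]
      exact Finset.sum_congr rfl fun a _ => by ring
    refine ⟨u * t * ℓ * r.coeff b + u * ℓ * w * e.coeff b, ?_⟩
    show ∑ a, ((t : ℤ) * e.coeff a) * ((t : ℤ) * e.coeff (a⁻¹ * b)) - (t : ℤ) * e.coeff b = _
    rw [hs, hnn]
    push_cast
    have e1 : (t : ℤ) * t * ∑ a, e.coeff a * e.coeff (a⁻¹ * b) - (t : ℤ) * e.coeff b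
        = (t : ℤ) * t * ((ℓ : ℤ) ^ (k0 + 1) * r.coeff b) + (t : ℤ) * ((t : ℤ) - 1) * e.coeff b := by
      rw [← hb]
      ring
    rw [e1, hw]
    have e2 : (t : ℤ) * t * ((ℓ : ℤ) ^ (k0 + 1) * r.coeff b)
        + (t : ℤ) * ((ℓ : ℤ) ^ (k0 + 1) * w) * e.coeff b
        = (t : ℤ) * (t * ((ℓ : ℤ) ^ (k0 + 1) * r.coeff b) + ((ℓ : ℤ) ^ (k0 + 1) * w) * e.coeff b) := by
      ring
    rw [e2]
    nth_rewrite 1 [hu]
    ring
  · intro a
    have ha : e.coeff a - g a = (ℓ : ℤ) * s.coeff a := by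
      have := congrArg (fun x : MonoidAlgebra ℤ A => x.coeff a) h2
      simp only [MonoidAlgebra.coeff_sub, Finsupp.sub_apply, MonoidAlgebra.coeff_smul,
        Finsupp.smul_apply, smul_eq_mul, hcoe] at this
      exact this
    have e3 : (t : ℤ) * e.coeff a = g a + (ℓ : ℤ) * (s.coeff a + (ℓ : ℤ) ^ k0 * w * e.coeff a) := by
      have e4 : (t : ℤ) * e.coeff a = e.coeff a + ((t : ℤ) - 1) * e.coeff a := by ring
      rw [e4, hw]
      have e5 : e.coeff a = g a + (ℓ : ℤ) * s.coeff a := by linarith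
      nth_rewrite 1 [e5]
      ring
    show (((t : ℤ) * e.coeff a : ℤ) : ZMod ℓ) = cb a
    rw [e3]
    push_cast
    rw [hg, ZMod.natCast_self]
    ring

end H51.SN
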