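import Mathlib

/-!
# H51-SN-ALG1: counting with idempotents

For subgroups `B' ≤ B` of `Y`, stable under `e`, with `e (e y) - e y ∈ B'` for `y ∈ B`, let `N(B/B')` be the index of `B'` in `e B + B'` (`relIndex`). MULTIPLICATIVITY: `N(B/B'') = N(B/B') N(B'/B'')` for `B'' ≤ B' ≤ B` (`e (e y) - e y ∈ B''` on `B`):
the second isomorphism theorem and `(e B + B'') ∩ B' = e B' + B''` (if `y = e b + b'' ∈ B'` then `e b ∈ B'`, `e y - y ∈ B''`, so `y ∈ e B' + B''`). With `ℓ : Y → Y` injective: `N(ℓ Y / ℓ X) = N(Y / X)`. So `N(Y/X) N(X/ℓX) = N(Y/ℓX) = N(Y/ℓY) N(ℓY/ℓX)`, all finite, `N(X/ℓX) = N(Y/ℓY)`.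
`hb` gives `2 ^ s ≤ N(Y/ℓY)`: the elements `e (f T)` are different modulo `ℓ Y`. So there are more than `#Z` elements `x i` of `X` with `e (x i)` different modulo `ℓ X`; `x i = dv (u i)`; two of the `L (eU (u i))` are equal (pigeonhole); `u = u i - u j`: if `eU u = ℓ • u'` then `e (x i) - e (x j) = ℓ • dv u'`, in `ℓ X`, contradiction.
-/

set_option autoImplicit false

namespace H51.SN

section mult

variable {Y : Type} [AddCommGroup Y] (e : Y →+ Y)

/-- multiplicativity of the index of `B'` in `e B + B'` -/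
private theorem mlt {B B' B'' : AddSubgroup Y} (h1 : B'' ≤ B') (h2 : B' ≤ B)
    (he1 : B'.map e ≤ B') (he2 : B''.map e ≤ B'')
    (hid : ∀ y ∈ B, e (e y) - e y ∈ B'') :
    B''.relIndex (B.map e ⊔ B'') = B'.relIndex (B.map e ⊔ B') *
      B''.relIndex (B'.map e ⊔ B'') := by
  have hinf : (B.map e ⊔ B'') ⊓ B' = B'.map e ⊔ B'' := by
    apply le_antisymm
    · rintro y ⟨hy1, hy2⟩
      obtain ⟨_, ⟨b, hb, rfl⟩, b'', hb'', rfl⟩ := AddSubgroup.mem_sup.1 hy1
      have h3 : e b ∈ B' := by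
        have := B'.sub_mem hy2 (h1 hb'')
        rwa [add_sub_cancel_right] at this
      have h4 : e (e b) ∈ B'.map e := ⟨e b, h3, rfl⟩
      have h5 := hid b hb
      have h6 : e b + b'' = e (e b) + (b'' - (e (e b) - e b)) := by abel
      rw [h6]
      exact AddSubgroup.add_mem_sup h4 (B''.sub_mem hb'' h5)
    · refine sup_le (le_inf ?_ he1) (le_inf le_sup_right h1)
      exact (AddSubgroup.map_mono h2).trans le_sup_left
  have h3 := AddSubgroup.relIndex_mul_relIndex (H := B'') (K := (B.map e ⊔ B'') ⊓ B')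
    (L := B.map e ⊔ B'') (le_inf le_sup_right h1) inf_le_left
  rw [AddSubgroup.inf_relIndex_left, hinf] at h3
  rw [← h3, mul_comm]
  congr 1
  rw [← AddSubgroup.relIndex_sup_right (H := B.map e ⊔ B'') (K := B'), sup_assoc,
    sup_eq_right.2 h1]

end mult

theorem alg1 {Y : Type} [AddCommGroup Y] {ℓ : ℕ} (hinj : ∀ y : Y, ℓ • y = 0 → y = 0)
    {U : Type} [AddCommGroup U] (dv : U →+ Y) (eU : U →+ U) (e : Y →+ Y)
    (hde : ∀ u, dv (eU u) = e (dv u)) (he : ∀ y, ∃ u, e (e y) - e y = ℓ • dv u)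
    (m : ℕ) (hm : m ≠ 0) (hmX : ∀ y : Y, ∃ u, m • y = dv u)
    (hfin : Finite (Y ⧸ (nsmulAddMonoidHom (α := Y) (ℓ * m)).range)) {s : ℕ}
    (f : Finset (Fin s) → Y) (hb : ∀ T T' y, e (f T) - e (f T') = ℓ • y → T = T')
    {Z : Type} [AddCommGroup Z] [Finite Z] (L : U →+ Z) (hlt : Nat.card Z < 2 ^ s) :
    ∃ u : U, L (eU u) = 0 ∧ ∀ u', eU u ≠ ℓ • u' := by
  classical
  obtain ⟨g, hg⟩ : ∃ g : Y →+ Y, ∀ y, g y = ℓ • y := ⟨nsmulAddMonoidHom ℓ, fun _ => rfl⟩
  have hgi : Function.Injective g := by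
    rw [injective_iff_map_eq_zero]
    intro y hy
    rw [hg] at hy
    exact hinj y hy
  obtain ⟨X, hX⟩ : ∃ X : AddSubgroup Y, X = dv.range := ⟨_, rfl⟩
  have hXm : ∀ u, dv u ∈ X := fun u => by rw [hX]; exact ⟨u, rfl⟩
  have hXe : X.map e ≤ X := by
    rintro _ ⟨x, hx, rfl⟩
    have hx' : x ∈ X := hx
    rw [hX] at hx'
    obtain ⟨u, rfl⟩ := hx'
    rw [← hde]
    exact hXm _
  have hgX : X.map g ≤ X := by
    rintro _ ⟨x, hx, rfl⟩
    rw [hg]
    exact X.nsmul_mem hx ℓ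
  have hge : ∀ B : AddSubgroup Y, (B.map g).map e = (B.map e).map g := by
    intro B
    rw [AddSubgroup.map_map, AddSubgroup.map_map]
    congr 1
    ext y
    show e (g y) = g (e y)
    rw [hg, hg, map_nsmul]
  have hidX : ∀ y, e (e y) - e y ∈ X.map g := by
    intro y
    obtain ⟨u, hu⟩ := he y
    exact ⟨dv u, hXm u, by rw [hg, hu]⟩
  -- the two decompositions
  have hA := mlt e (B := ⊤) (B' := X) (B'' := X.map g) hgX le_top hXe
    (by rw [hge]; exact AddSubgroup.map_mono hXe) (fun y _ => hidX y)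
  have hB := mlt e (B := ⊤) (B' := (⊤ : AddSubgroup Y).map g) (B'' := X.map g)
    (AddSubgroup.map_mono le_top) le_top
    (by rw [hge]; exact AddSubgroup.map_mono le_top)
    (by rw [hge]; exact AddSubgroup.map_mono hXe) (fun y _ => hidX y)
  have hd : (X.map g).relIndex (((⊤ : AddSubgroup Y).map g).map e ⊔ X.map g) =
      X.relIndex ((⊤ : AddSubgroup Y).map e ⊔ X) := by
    rw [hge, ← AddSubgroup.map_sup]
    exact AddSubgroup.relIndex_map_map_of_injective _ _ hgi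
  rw [hd] at hB
  -- finiteness
  have hfi : ((nsmulAddMonoidHom (α := Y) (ℓ * m)).range).index ≠ 0 := by
    rw [AddSubgroup.index]
    exact Nat.card_pos.ne'
  have hle : (nsmulAddMonoidHom (α := Y) (ℓ * m)).range ≤ X.map g := by
    rintro _ ⟨y, rfl⟩
    obtain ⟨u, hu⟩ := hmX y
    refine ⟨dv u, hXm u, ?_⟩
    rw [hg, ← hu, smul_smul]
    rfl
  have hne : ∀ (B C : AddSubgroup Y), X.map g ≤ B → B.relIndex C ≠ 0 := by
    intro B C hB'
    have h1 : B.index ≠ 0 := fun h0 =>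
      hfi (by
        have := AddSubgroup.index_dvd_of_le (hle.trans hB')
        rw [h0] at this
        exact Nat.eq_zero_of_zero_dvd this)
    have h2 : B.relIndex C ∣ B.index := AddSubgroup.relIndex_dvd_index_of_normal _ _
    exact fun h0 => h1 (by rw [h0] at h2; exact Nat.eq_zero_of_zero_dvd h2)
  have hbc : ((⊤ : AddSubgroup Y).map g).relIndex
      ((⊤ : AddSubgroup Y).map e ⊔ (⊤ : AddSubgroup Y).map g) =
      (X.map g).relIndex (X.map e ⊔ X.map g) := by
    have h1 := hA.symm.trans hB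
    rw [mul_comm] at h1
    exact (Nat.eq_of_mul_eq_mul_right
      (Nat.pos_of_ne_zero (hne X _ hgX)) h1).symm
  -- the lower bound
  have h2s : 2 ^ s ≤ ((⊤ : AddSubgroup Y).map g).relIndex
      ((⊤ : AddSubgroup Y).map e ⊔ (⊤ : AddSubgroup Y).map g) := by
    have hfin2 : Finite (((⊤ : AddSubgroup Y).map e ⊔ (⊤ : AddSubgroup Y).map g :
        AddSubgroup Y) ⧸ ((⊤ : AddSubgroup Y).map g).addSubgroupOf
        ((⊤ : AddSubgroup Y).map e ⊔ (⊤ : AddSubgroup Y).map g)) :=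
      Nat.finite_of_card_ne_zero (hne _ _ (AddSubgroup.map_mono le_top))
    have hinj2 : Function.Injective (fun T : Finset (Fin s) =>
        (QuotientAddGroup.mk (⟨e (f T), AddSubgroup.mem_sup_left ⟨f T, trivial, rfl⟩⟩ :
          ((⊤ : AddSubgroup Y).map e ⊔ (⊤ : AddSubgroup Y).map g : AddSubgroup Y)) :
          ((⊤ : AddSubgroup Y).map e ⊔ (⊤ : AddSubgroup Y).map g : AddSubgroup Y) ⧸
            ((⊤ : AddSubgroup Y).map g).addSubgroupOf
              ((⊤ : AddSubgroup Y).map e ⊔ (⊤ : AddSubgroup Y).map g))) := by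
      intro T T' h
      have h1 := QuotientAddGroup.eq.1 h
      rw [AddSubgroup.mem_addSubgroupOf] at h1
      obtain ⟨y, -, hy⟩ := h1
      have h2 : e (f T') - e (f T) = ℓ • y := by
        rw [← hg, hy]
        show _ = -e (f T) + e (f T')
        abel
      exact (hb _ _ _ h2).symm
    have h3 := Nat.card_le_card_of_injective _ hinj2
    rw [Nat.card_eq_fintype_card, Fintype.card_finset, Fintype.card_fin] at h3
    exact h3
  rw [hbc] at h2s
  have hlt2 := lt_of_lt_of_le hlt h2s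
  -- pigeonhole
  obtain ⟨Q, hQ⟩ : ∃ Q : AddSubgroup Y, Q = X.map e ⊔ X.map g := ⟨_, rfl⟩
  rw [← hQ] at hlt2
  have hrep : ∀ q : Q ⧸ (X.map g).addSubgroupOf Q, ∃ u : U, ∃ h : e (dv u) ∈ Q,
      (QuotientAddGroup.mk (⟨e (dv u), h⟩ : Q) : Q ⧸ (X.map g).addSubgroupOf Q) = q := by
    intro q
    obtain ⟨⟨y, hy⟩, rfl⟩ := QuotientAddGroup.mk_surjective q
    have hy' := hy
    rw [hQ] at hy'
    obtain ⟨_, ⟨x, hx, rfl⟩, x', hx', rfl⟩ := AddSubgroup.mem_sup.1 hy'
    have hx2 : x ∈ X := hx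
    rw [hX] at hx2
    obtain ⟨u, rfl⟩ := hx2
    have hQu : e (dv u) ∈ Q := by
      rw [hQ]
      exact AddSubgroup.mem_sup_left ⟨dv u, hXm u, rfl⟩
    refine ⟨u, hQu, ?_⟩
    rw [QuotientAddGroup.eq, AddSubgroup.mem_addSubgroupOf]
    show -e (dv u) + (e (dv u) + x') ∈ X.map g
    rwa [neg_add_cancel_left]
  choose r hrQ hr using hrep
  have hfinQ : Finite (Q ⧸ (X.map g).addSubgroupOf Q) :=
    Nat.finite_of_card_ne_zero (by
      have := hne (X.map g) Q le_rfl
      exact this)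
  have hni : ¬ Function.Injective (fun q => L (eU (r q))) := by
    intro h
    have h1 := Nat.card_le_card_of_injective _ h
    have h2 : Nat.card (Q ⧸ (X.map g).addSubgroupOf Q) = (X.map g).relIndex Q := rfl
    omega
  obtain ⟨q, q', hqq, hne'⟩ : ∃ q q', L (eU (r q)) = L (eU (r q')) ∧ q ≠ q' := by
    by_contra hc
    push Not at hc
    exact hni fun q q' h => hc q q' h
  refine ⟨r q - r q', ?_, fun u' hu' => hne' ?_⟩
  · rw [map_sub, map_sub, hqq, sub_self]
  · rw [← hr q, ← hr q']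
    symm
    rw [QuotientAddGroup.eq, AddSubgroup.mem_addSubgroupOf]
    refine ⟨dv u', hXm u', ?_⟩
    have h1 := congrArg dv hu'
    rw [hde, map_sub, map_sub, map_nsmul] at h1
    rw [hg, ← h1]
    show _ = -e (dv (r q')) + e (dv (r q))
    abel

end H51.SN
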