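import Mathlib

/-!
# H51-SN-ALG2: the idempotent of an irreducible relatively projective module (no Maschke)

PROOF. Let `b` be a basis of `M` over `ZMod ℓ` (`AddCommGroup.zmodModule`), `m_k` its elements, `lam_k x` the coordinate of `θ x`: `θ x = ∑ k, lam_k x • m_k`. Put `j_k x = (a ↦ lam_k (a⁻¹ • x)) : A → ZMod ℓ` and `π_k r = ∑ a, r a • (a • m_k)`. By `hθ`
`∑ k, π_k (j_k x) = x` for all `x`. `M` is not zero: there is `k` with `u := π_k ∘ j_k ≠ 0`. `u` commutes with `A` (`j_k (c x) a = j_k x (c⁻¹ a)`), its kernel and range are stable, so `u` is bijective (`hirr`). Let `m = m_k`, `lam = lam_k`, `x₀ = u⁻¹ m`.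
Put `r = j_k x₀`, so `∑ a, r a • (a • m) = m` (1). For all `b`: `∑ a, r a * r (a⁻¹ b) = r b`: `r (a⁻¹ b) = lam (b⁻¹ a x₀)`, so the left side is `lam (b⁻¹ y)`, `y = ∑ a, r a • (a • x₀)`, and `u y = ∑ r a • (a • u x₀) = m = u x₀` by (1), so `y = x₀`.
With `a ↦ a⁻¹` this is the statement: `lam (a x₀) = r a⁻¹`. `r ≠ 0` by (1) (`m ≠ 0`).
-/

set_option autoImplicit false

namespace H51.SN

theorem alg2_aux {ℓ : ℕ} [Fact ℓ.Prime] {A : Type} [Group A] [Fintype A] {M : Type}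
    [AddCommGroup M] [DistribMulAction A M] [Finite M] [Nontrivial M] [Module (ZMod ℓ) M]
    (hirr : ∀ N : AddSubgroup M, (∀ (a : A), ∀ m ∈ N, a • m ∈ N) → N = ⊥ ∨ N = ⊤)
    (θ : M →+ M) (hθ : ∀ m, ∑ a : A, a • θ (a⁻¹ • m) = m) :
    ∃ (x₀ : M) (lam : M →+ ZMod ℓ), (∃ a : A, lam (a • x₀) ≠ 0) ∧
      ∀ b : A, ∑ a, lam (a • x₀) * lam ((a⁻¹ * b) • x₀) = lam (b • x₀) := by
  classical
  let B := Module.finBasis (ZMod ℓ) M
  let L : Fin (Module.finrank (ZMod ℓ) M) → (M →+ ZMod ℓ) := fun k => (B.coord k).toAddMonoidHom.comp θ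
  have hL : ∀ x, ∑ k, L k x • B k = θ x := fun x => B.sum_repr (θ x)
  have hsm : ∀ (a : A) (c : ZMod ℓ) (m : M), a • (c • m) = c • (a • m) := fun a c m =>
    ZMod.map_smul (DistribMulAction.toAddMonoidHom M a) c m
  let u : Fin (Module.finrank (ZMod ℓ) M) → (M →+ M) := fun k =>
    { toFun := fun x => ∑ a : A, L k (a⁻¹ • x) • (a • B k)
      map_zero' := by simp
      map_add' := fun x y => by
        rw [← Finset.sum_add_distrib]
        refine Finset.sum_congr rfl fun a _ => ?_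
        rw [smul_add, map_add, add_smul] }
  have hu : ∀ k x, u k x = ∑ a : A, L k (a⁻¹ • x) • (a • B k) := fun k x => rfl
  have hsum : ∀ x, ∑ k, u k x = x := by
    intro x
    have h1 := hθ x
    simp only [hu]
    rw [Finset.sum_comm]
    refine Eq.trans (Finset.sum_congr rfl fun a _ => ?_) h1
    rw [← hL, Finset.smul_sum]
    exact Finset.sum_congr rfl fun k _ => (hsm _ _ _).symm
  obtain ⟨z, hz⟩ := exists_ne (0 : M)
  obtain ⟨k, hk⟩ : ∃ k, u k z ≠ 0 := by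
    by_contra hcon
    push Not at hcon
    apply hz
    rw [← hsum z]
    exact Finset.sum_eq_zero fun k _ => hcon k
  have heq : ∀ (c : A) (x : M), u k (c • x) = c • u k x := by
    intro c x
    rw [hu, hu, Finset.smul_sum]
    refine (Fintype.sum_equiv (Equiv.mulLeft c) _ _ fun a => ?_).symm
    rw [Equiv.coe_mulLeft, hsm, mul_inv_rev, ← mul_smul, ← mul_smul, mul_assoc, inv_mul_cancel, mul_one]
  have hinj : Function.Injective (u k) := by
    rw [← AddMonoidHom.ker_eq_bot_iff]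
    refine (hirr (u k).ker fun a m hm => ?_).resolve_right fun h => ?_
    · rw [AddMonoidHom.mem_ker] at hm ⊢
      rw [heq, hm, smul_zero]
    · have : z ∈ (u k).ker := by rw [h]; exact AddSubgroup.mem_top z
      exact hk (AddMonoidHom.mem_ker.1 this)
  obtain ⟨x₀, hx₀⟩ := (Finite.injective_iff_surjective.1 hinj) (B k)
  have hy : ∑ a : A, L k (a⁻¹ • x₀) • (a • x₀) = x₀ := by
    apply hinj
    rw [map_sum, hx₀]
    have e1 : ∀ a : A, u k (L k (a⁻¹ • x₀) • (a • x₀)) = L k (a⁻¹ • x₀) • (a • B k) := by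
      intro a
      rw [ZMod.map_smul, heq, hx₀]
    rw [Finset.sum_congr rfl fun a _ => e1 a, ← hu, hx₀]
  refine ⟨x₀, L k, ?_, fun b => ?_⟩
  · by_contra hcon
    push Not at hcon
    have h0 : B k = 0 := by
      rw [← hx₀, hu]
      exact Finset.sum_eq_zero fun a _ => by rw [hcon, zero_smul]
    apply hk
    rw [hu]
    exact Finset.sum_eq_zero fun a _ => by rw [h0, smul_zero, smul_zero]
  · have h2 : L k (b • x₀) = ∑ a : A, L k (a⁻¹ • x₀) * L k ((b * a) • x₀) := by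
      conv_lhs => rw [← hy]
      rw [Finset.smul_sum, map_sum]
      refine Finset.sum_congr rfl fun a _ => ?_
      rw [hsm, ZMod.map_smul, smul_eq_mul, mul_smul]
    rw [h2]
    refine (Fintype.sum_equiv (Equiv.mulLeft b) _ _ fun a => ?_).symm
    rw [Equiv.coe_mulLeft, mul_inv_rev, inv_mul_cancel_right, mul_comm]

theorem alg2 {ℓ : ℕ} (hℓ : ℓ.Prime) {A : Type} [Group A] [Fintype A] {M : Type}
    [AddCommGroup M] [DistribMulAction A M] [Finite M] [Nontrivial M]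
    (hM : ∀ m : M, ℓ • m = 0)
    (hirr : ∀ N : AddSubgroup M, (∀ (a : A), ∀ m ∈ N, a • m ∈ N) → N = ⊥ ∨ N = ⊤)
    (θ : M →+ M) (hθ : ∀ m, ∑ a : A, a • θ (a⁻¹ • m) = m) :
    ∃ (x₀ : M) (lam : M →+ ZMod ℓ), (∃ a : A, lam (a • x₀) ≠ 0) ∧
      ∀ b : A, ∑ a, lam (a • x₀) * lam ((a⁻¹ * b) • x₀) = lam (b • x₀) := by
  haveI : Fact ℓ.Prime := ⟨hℓ⟩
  letI : Module (ZMod ℓ) M := AddCommGroup.zmodModule hM
  exact alg2_aux hirr θ hθ

end H51.SN
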