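import Pool.Agent.H51.SN.Alg2
import Pool.Agent.H51.SN.Lft
import Pool.Agent.H51.SN.Nft
import Pool.Agent.H51.SN.Unr
import Pool.Agent.H51.SN.Plc

/-!
# H51-SN-KAP: the equivariant homomorphism `κ`

PROOF. `F`, `act` from `exists_act`; `NumberField F`. `x₀`, `lam` from `alg2`, `cb a = lam (a • x₀)`; `hcl` from `lft`. `s = S'.card`, `v : Fin s → Pl K` an enumeration of `S'`, `w i = wp F Q (v i)`; `hw` from `plc_inj`. `Z = (H ⊕ (A × S'')) → ZMod ℓ`, `#Z = ℓ ^ (#H + #A #S'')`. For `h : H` choose `γ_h` with `φ γ_h = h`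
and `θ γ_h = 1` if there is one (`1` otherwise). `Lc x` = `(h ↦ kq x γ_h, (a, v) ↦ kq (act a x) (fr Q v))`: a homomorphism (`kq_arg`; `γ_h` and `fr Q v` are in `θ.ker`, which fixes `F`; `H77.AQ.fr_dec`). `nft` gives `y`.
`κ γ = ∑ a, (kq ℓ ζ (act a y) γ).val • (a • x₀)` for `γ` in `θ.ker`, `0` otherwise.
`IsA.add`: `kq_mul` (`M` is killed by `ℓ`). `IsA.eqv`: `kq (act a y) (h γ h⁻¹) = kq (h⁻¹ (act a y)) γ` (`kq_conj`) `= kq (act ((θ h)⁻¹ a) y) γ` (`Acts.act`); reindex.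
Finite type: `kq_ft` for the finitely many `act a y`, and `F`.
Inertia: `v ∉ S'`, `ℓ ∉ v`, `τ ∈ (Q.P v).inertia`, `θ τ = 1`: `kq (act a y) τ = 0` by `unr` with `P = Q.P v`, `w = wp F Q v`: `ord w (act a y) = ord (pm (act a⁻¹) w) y` (`ord_pm`) `= 0`, since `pm (act a⁻¹) w` is not a `pm (act b) (w i)` because it is over `v` (`plc_und`), `v ≠ v i`.
`κ (fr Q v) = 0`, `v ∈ S''`: from `Lc y = 1`.
`∃ δ`: suppose `κ δ = 0` for all `δ` in `φ.ker` (`≤ θ.ker`). Apply `lam`: `0 = ∑ a, kq (act a y) δ * cb a = kq (∏ (act a y) ^ (cb a).val) δ = kq (y z ^ ℓ) δ = kq y δ` (`kq_prod`, `kq_npow`, `kq_arg`, `kq_pow`). With `Lc y = 1`: for `γ` in `θ.ker`, `h = φ γ`: `γ = γ_h δ`, `δ ∈ φ.ker`, so `kq y γ = 0`.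
So `y` is an `ℓ`-th power in `F` (`kq_zero_pow`), contradiction.
-/

set_option autoImplicit false

open scoped NumberField Classical
open IsDedekindDomain H63.MA H38.ML H67.AQ H36.QA H57.LI H57.LC H57.SL NumberField

namespace H51.SN

variable {K : IntermediateField ℚ QBar} [NumberField K] {ℓ : ℕ} {ζ : K}

/-- multiples by residues -/
private theorem vs {M : Type} [AddCommGroup M] (hM : ∀ m : M, ℓ • m = 0) (n : ℕ) (m : M) :
    (n % ℓ) • m = n • m := by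
  conv_rhs => rw [← Nat.mod_add_div n ℓ, add_nsmul, mul_comm ℓ, mul_nsmul, hM, add_zero]

private theorem vadd [NeZero ℓ] {M : Type} [AddCommGroup M] (hM : ∀ m : M, ℓ • m = 0) (u v : ZMod ℓ)
    (m : M) : (u + v).val • m = u.val • m + v.val • m := by
  rw [ZMod.val_add, vs hM, add_nsmul]

/-- `pm` is an action -/
private theorem pm_mul {F : Type} [Field F] [NumberField F] (e e' : F ≃+* F) (w : Pl F) :
    pm (e * e') w = pm e (pm e' w) := by
  apply HeightOneSpectrum.ext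
  ext x
  rfl

theorem kap (hℓ : ℓ.Prime) (hζ : IsPrimitiveRoot ζ ℓ) {A : Type} [Group A] [Fintype A]
    {M : Type} [AddCommGroup M] [DistribMulAction A M] [Finite M] [Nontrivial M]
    (hM : ∀ m : M, ℓ • m = 0)
    (hirr : ∀ N : AddSubgroup M, (∀ (a : A), ∀ m ∈ N, a • m ∈ N) → N = ⊥ ∨ N = ⊤)
    (θM : M →+ M) (hθM : ∀ m, ∑ a : A, a • θM (a⁻¹ • m) = m)
    {H : Type} [Group H] [Finite H] (Q : DP K QBar) (φ : Gal(QBar/K) →* H) (hφ : FT φ)
    (θ : Gal(QBar/K) →* A) (hθ : FT θ) (hs : Function.Surjective θ) (hker : φ.ker ≤ θ.ker)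
    (S' S'' : Finset (Pl K)) (hdis : Disjoint S' S'')
    (h' : ∀ v ∈ S', ∀ σ ∈ dec (K := K) (Q.P v), θ σ = 1)
    (h'' : ∀ v ∈ S'', ∀ σ ∈ dec (K := K) (Q.P v), θ σ = 1)
    (hcard : ℓ ^ (Nat.card H + Nat.card A * S''.card) < 2 ^ S'.card) :
    ∃ κ : Gal(QBar/K) → M, IsA θ κ ∧
      (∃ E : IntermediateField K QBar, FiniteDimensional K E ∧
        ∀ γ ∈ E.fixingSubgroup, θ γ = 1 ∧ κ γ = 0) ∧
      (∀ v, v ∉ S' → ((ℓ : ℕ) : 𝓞 K) ∉ v.asIdeal →
        ∀ τ ∈ (Q.P v).inertia Gal(QBar/K), θ τ = 1 → κ τ = 0) ∧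
      (∀ v ∈ S'', κ (fr Q v) = 0) ∧ ∃ δ, φ δ = 1 ∧ κ δ ≠ 0 := by
  have : Fact ℓ.Prime := ⟨hℓ⟩
  have : NeZero ℓ := ⟨hℓ.ne_zero⟩
  obtain ⟨F, act, HA⟩ := exists_act θ hθ hs
  have : FiniteDimensional K F := HA.fin
  have : NumberField F := NumberField.of_module_finite K F
  obtain ⟨x₀, lam, ⟨a0, ha0⟩, hlam⟩ := alg2 hℓ hM hirr θM hθM
  obtain ⟨cb, hcb⟩ : ∃ cb : A → ZMod ℓ, ∀ a, cb a = lam (a • x₀) := ⟨_, fun _ => rfl⟩
  have hcc : ∀ b : A, ∑ a, cb a * cb (a⁻¹ * b) = cb b := by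
    intro b
    simp only [hcb]
    exact hlam b
  -- elements of the kernel of `θ` fix `F`
  have hfix : ∀ γ : Gal(QBar/K), θ γ = 1 → γ ∈ F.fixingSubgroup := by
    intro γ hγ
    rw [HA.fix]
    exact hγ
  have hfx : ∀ γ : Gal(QBar/K), θ γ = 1 → ∀ x : F, γ (x : QBar) = (x : QBar) := by
    intro γ hγ x
    exact (IntermediateField.mem_fixingSubgroup_iff F γ).1 (hfix γ hγ) _ x.2
  have hne : ∀ x : Fˣ, ((x : F) : QBar) ≠ 0 := by
    intro x h0
    exact x.ne_zero (Subtype.ext h0)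
  -- the places of `S'`
  obtain ⟨v, hvS, hvi⟩ : ∃ v : Fin S'.card → Pl K, (∀ i, v i ∈ S') ∧ Function.Injective v :=
    ⟨fun i => (S'.equivFin.symm i : Pl K), fun i => (S'.equivFin.symm i).2,
      Subtype.val_injective.comp S'.equivFin.symm.injective⟩
  have hw : ∀ (a b : A) (i j : Fin S'.card), pm (act a) (wp F Q (v i)) = pm (act b) (wp F Q (v j)) → a = b ∧ i = j := by
    intro a b i j hij
    obtain ⟨h1, h2⟩ := plc_inj HA hs Q (v i) (v j) (h' (v i) (hvS i)) a b hij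
    exact ⟨h1, hvi h2⟩
  -- representatives
  obtain ⟨g, hg⟩ : ∃ g : H → Gal(QBar/K), ∀ h, θ (g h) = 1 ∧ ((∃ γ, θ γ = 1 ∧ φ γ = h) → φ (g h) = h) := by
    have h1 : ∀ h : H, ∃ γ : Gal(QBar/K), θ γ = 1 ∧ ((∃ γ, θ γ = 1 ∧ φ γ = h) → φ γ = h) := by
      intro h
      by_cases h2 : ∃ γ, θ γ = 1 ∧ φ γ = h
      · obtain ⟨γ, h3, h4⟩ := h2
        exact ⟨γ, h3, fun _ => h4⟩
      · exact ⟨1, map_one θ, fun h3 => absurd h3 h2⟩
    choose g hg using h1
    exact ⟨g, hg⟩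
  have hfr : ∀ u ∈ S'', θ (fr Q u) = 1 := fun u hu => h'' u hu _ (H77.AQ.fr_dec Q u)
  -- the local conditions
  have hL1 : ∀ (γ : Gal(QBar/K)), θ γ = 1 → ∀ x y : Fˣ, kq ℓ ζ (((x * y : Fˣ) : F) : QBar) γ =
      kq ℓ ζ ((x : F) : QBar) γ + kq ℓ ζ ((y : F) : QBar) γ := by
    intro γ hγ x y
    exact kq_arg hℓ hζ (hne x) (hne y) (hfx γ hγ _) (hfx γ hγ _)
  obtain ⟨Lc, hLc⟩ : ∃ Lc : Fˣ →* Multiplicative ((H ⊕ (A × S'')) → ZMod ℓ), ∀ x, Lc x = Multiplicative.ofAdd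
      (Sum.elim (fun h => kq ℓ ζ ((x : F) : QBar) (g h))
        (fun p => kq ℓ ζ (((ax act p.1 x : Fˣ) : F) : QBar) (fr Q p.2))) := by
    refine ⟨MonoidHom.mk' (fun x => Multiplicative.ofAdd
      (Sum.elim (fun h => kq ℓ ζ ((x : F) : QBar) (g h))
        (fun p => kq ℓ ζ (((ax act p.1 x : Fˣ) : F) : QBar) (fr Q p.2)))) ?_, fun x => rfl⟩
    intro x y
    rw [← ofAdd_add]
    refine congrArg _ (funext fun t => ?_)
    rcases t with h | p
    · exact hL1 _ (hg h).1 x y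
    · show kq ℓ ζ (((ax act p.1 (x * y) : Fˣ) : F) : QBar) (fr Q p.2) = kq ℓ ζ (((ax act p.1 x : Fˣ) : F) : QBar) (fr Q p.2) +
        kq ℓ ζ (((ax act p.1 y : Fˣ) : F) : QBar) (fr Q p.2)
      rw [map_mul]
      exact hL1 _ (hfr _ p.2.2) _ _
  have hZ : ∀ z : (H ⊕ (A × S'')) → ZMod ℓ, ℓ • z = 0 := by
    intro z
    funext t
    show ℓ • z t = 0
    rw [nsmul_eq_mul, CharP.cast_eq_zero, zero_mul]
  have hlt : Nat.card ((H ⊕ (A × S'')) → ZMod ℓ) < 2 ^ S'.card := by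
    rw [Nat.card_fun, Nat.card_sum, Nat.card_prod, Nat.card_zmod]
    have : Nat.card S'' = S''.card := by
      rw [Nat.card_eq_fintype_card, Fintype.card_coe]
    rw [this]
    exact hcard
  obtain ⟨y, hy1, hy2, hy3, z, hz⟩ := nft act hℓ cb ⟨a0, by rw [hcb]; exact ha0⟩ (fun n hn => lft hℓ cb hcc n hn)
    (fun i => wp F Q (v i)) hw hZ Lc hlt
  rw [hLc] at hy2
  have hy2' := fun t => congrFun (Multiplicative.ofAdd.injective (hy2.trans (ofAdd_zero).symm)) t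
  have hyg : ∀ h : H, kq ℓ ζ ((y : F) : QBar) (g h) = 0 := fun h => hy2' (Sum.inl h)
  have hyf : ∀ (a : A), ∀ u ∈ S'', kq ℓ ζ (((ax act a y : Fˣ) : F) : QBar) (fr Q u) = 0 := fun a u hu =>
    hy2' (Sum.inr (a, ⟨u, hu⟩))
  -- the homomorphism
  obtain ⟨κ, hκ⟩ : ∃ κ : Gal(QBar/K) → M, ∀ γ, κ γ =
      ∑ a : A, (kq ℓ ζ (((ax act a y : Fˣ) : F) : QBar) γ).val • (a • x₀) := ⟨_, fun _ => rfl⟩
  have hκ0 : ∀ γ, (∀ a, kq ℓ ζ (((ax act a y : Fˣ) : F) : QBar) γ = 0) → κ γ = 0 := by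
    intro γ h0
    rw [hκ]
    refine Finset.sum_eq_zero fun a _ => ?_
    rw [h0 a, ZMod.val_zero, zero_nsmul]
  refine ⟨κ, ⟨?_, ?_⟩, ?_, ?_, ?_, ?_⟩
  · -- additivity
    intro γ δ hγ hδ
    rw [hκ, hκ, hκ, ← Finset.sum_add_distrib]
    refine Finset.sum_congr rfl fun a _ => ?_
    rw [kq_mul hℓ hζ (hne _) (hfx γ hγ _) (hfx δ hδ _), vadd hM]
  · -- equivariance
    intro h γ hγ
    rw [hκ, hκ, Finset.smul_sum, ← Equiv.sum_comp (Equiv.mulLeft (θ h))]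
    refine Finset.sum_congr rfl fun b _ => ?_
    have e1 : (((ax act (θ h * b) y : Fˣ) : F) : QBar) = h (((ax act b y : Fˣ) : F) : QBar) := by
      show ((act (θ h * b) (y : F) : F) : QBar) = h ((act b (y : F) : F) : QBar)
      rw [map_mul]
      exact HA.act h (act b y)
    show (kq ℓ ζ (((ax act (θ h * b) y : Fˣ) : F) : QBar) (h * γ * h⁻¹)).val • ((θ h * b) • x₀) =
      θ h • ((kq ℓ ζ (((ax act b y : Fˣ) : F) : QBar) γ).val • (b • x₀))
    rw [e1, kq_conj hℓ hζ (hne _) (hfx γ hγ _) h, mul_smul]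
    exact (map_nsmul (DistribSMul.toAddMonoidHom M (θ h)) _ _).symm
  · -- finite type
    have h1 : ∀ a : A, ∃ E : IntermediateField K QBar, FiniteDimensional K E ∧ ∀ γ ∈ E.fixingSubgroup,
        kq ℓ ζ (((ax act a y : Fˣ) : F) : QBar) γ = 0 := by
      intro a
      obtain ⟨E, hE, hE2⟩ := kq_ft (K := K) (Ω := QBar) hℓ hζ (hne (ax act a y))
      exact ⟨E, hE, fun γ hγ => (hE2 γ hγ).2⟩
    choose E hE hE2 using h1
    have : ∀ a, FiniteDimensional K (E a) := hE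
    have : FiniteDimensional K (⨆ a, E a : IntermediateField K QBar) := IntermediateField.finiteDimensional_iSup_of_finite
    refine ⟨F ⊔ ⨆ a, E a, inferInstance, fun γ hγ => ⟨?_, hκ0 γ fun a => hE2 a γ ?_⟩⟩
    · have h3 : γ ∈ F.fixingSubgroup := IntermediateField.fixingSubgroup_antitone le_sup_left hγ
      rw [HA.fix] at h3
      exact h3
    · exact IntermediateField.fixingSubgroup_antitone ((le_iSup E a).trans le_sup_right) hγ
  · -- inertia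
    intro u hu hℓu τ hτ hθτ
    refine hκ0 τ fun a => ?_
    refine unr hℓ hζ F (Q.P u) (Q.prime u) (wp F Q u) rfl ?_ (ax act a y) ?_ τ hτ (hfix τ hθτ)
    · intro h1
      apply hℓu
      rw [← Q.under u, Ideal.under_def, Ideal.mem_comap, map_natCast]
      exact h1
    · obtain ⟨w', hw'⟩ := (pm (act a)).surjective (wp F Q u)
      rw [← hw']
      have h1 := ord_pm (act a) w' y
      refine h1.trans (hy1 w' fun b i hbi => hu ?_)
      rw [hbi, ← pm_mul, ← map_mul] at hw'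
      have h2 := plc_und HA hs Q (v i) (a * b)
      rw [hw'] at h2
      have h3 := plc_und HA hs Q u 1
      have h4 : pm (act (1 : A)) (wp F Q u) = wp F Q u := by
        rw [map_one]
        apply HeightOneSpectrum.ext
        ext x
        rfl
      rw [h4, h2] at h3
      have h5 : v i = u := HeightOneSpectrum.ext h3
      rw [← h5]
      exact hvS i
  · -- Frobenius
    intro u hu
    exact hκ0 _ fun a => hyf a u hu
  · -- not trivial
    by_contra hcon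
    push Not at hcon
    have h1 : ∀ δ : Gal(QBar/K), φ δ = 1 → kq ℓ ζ ((y : F) : QBar) δ = 0 := by
      intro δ hδ
      have hθδ : θ δ = 1 := hker hδ
      have e1 := hcon δ hδ
      rw [hκ] at e1
      have e2 := congrArg lam e1
      rw [map_sum, map_zero] at e2
      have e3 : kq ℓ ζ (((∏ a, ax act a y ^ (cb a).val : Fˣ) : F) : QBar) δ = 0 := by
        have e4 : (((∏ a, ax act a y ^ (cb a).val : Fˣ) : F) : QBar) =
            ∏ a, (((ax act a y : Fˣ) : F) : QBar) ^ (cb a).val := by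
          push_cast
          rfl
        rw [e4, kq_prod hℓ hζ _ _ (fun a _ => pow_ne_zero _ (hne _)) (fun a _ => by
          rw [map_pow, hfx δ hθδ]), ← e2]
        refine Finset.sum_congr rfl fun a _ => ?_
        rw [kq_npow hℓ hζ (hne _) (hfx δ hθδ _), map_nsmul, ← hcb, nsmul_eq_mul, nsmul_eq_mul, ZMod.natCast_zmod_val,
          ZMod.natCast_zmod_val, mul_comm]
      rw [hz, hL1 δ hθδ] at e3
      have e5 : kq ℓ ζ (((z ^ ℓ : Fˣ) : F) : QBar) δ = 0 := by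
        have e6 : (((z ^ ℓ : Fˣ) : F) : QBar) = ((z : F) : QBar) ^ ℓ := by
          push_cast
          rfl
        rw [e6]
        exact kq_pow hℓ hζ (hne z) (hfx δ hθδ _)
      rwa [e5, add_zero] at e3
    have h2 : ∀ γ ∈ F.fixingSubgroup, kq ℓ ζ ((y : F) : QBar) γ = 0 := by
      intro γ hγ
      rw [HA.fix] at hγ
      have hθγ : θ γ = 1 := hγ
      have e1 := (hg (φ γ)).2 ⟨γ, hθγ, rfl⟩
      have e2 : φ ((g (φ γ))⁻¹ * γ) = 1 := by
        rw [map_mul, map_inv, e1, inv_mul_cancel]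
      have e3 : γ = g (φ γ) * ((g (φ γ))⁻¹ * γ) := by
        rw [mul_inv_cancel_left]
      rw [e3, kq_mul hℓ hζ (hne y) (hfx _ (hg (φ γ)).1 _) (hfx _ (hker e2) _), h1 _ e2, add_zero]
      exact hyg (φ γ)
    obtain ⟨y', hy'⟩ := kq_zero_pow hℓ hζ F (y : F) y.ne_zero h2
    have hy0 : y' ≠ 0 := by
      rintro rfl
      rw [zero_pow hℓ.ne_zero] at hy'
      exact y.ne_zero hy'.symm
    exact hy3 ⟨Units.mk0 y' hy0, Units.ext (by rw [Units.val_pow_eq_pow_val, Units.val_mk0, hy'])⟩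

end H51.SN
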