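import Pool.Agent.H51.SN.Kap
import Pool.Agent.H51.SN.Coc
import Pool.Agent.H35.SN.Cob

/-!
# H51-SN-STP: THE STEP THEOREM (interface of helper35, H35/SN/Defs)

PROOF. `A = act.range`, `M = Additive V` with the action of `A`. `θ = act.rangeRestrict.comp φ`. `kap`, `coc`. `κ σ = κ' σ` (multiplicative). `∀ x, ∃ σ`: the image of `φ.ker` under `κ` is an `A`-stable subgroup (`IsA.add`, `IsA.eqv`; `φ.ker` normal), not trivial. On `dec` at `S''`: the map `σ ↦ κ' σ` restricted to `θ.ker` is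
a homomorphism; apply `H77.AQ.dec_fr` to the homomorphism `σ ↦ (κ' σ, φ σ)` to `V ⋊ H`. Last clause: `H35.SN.cob` for the inertia group: `κ` is trivial on `inertia ∩ θ.ker` (`v ∉ S'`, `ℓ ∉ v`).
-/

set_option autoImplicit false

open scoped NumberField Classical
open IsDedekindDomain H63.MA H38.ML H67.AQ H57.SL

namespace H51.SN

/-- the action on the additive group -/
@[reducible] def dma {V : Type} [CommGroup V] (A : Subgroup (MulAut V)) :
    DistribMulAction A (Additive V) where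
  smul a x := Additive.ofMul ((a : MulAut V) x.toMul)
  one_smul _ := rfl
  mul_smul _ _ _ := rfl
  smul_zero a := congrArg Additive.ofMul (map_one (a : MulAut V))
  smul_add a x y := congrArg Additive.ofMul (map_mul (a : MulAut V) x.toMul y.toMul)

theorem stp_card {l a b s t : ℕ} (hab : a ≤ b) (h : l * (b * (s + 1)) < t) :
    l ^ (b + a * s) < 2 ^ t := by
  rcases Nat.eq_zero_or_pos l with rfl | hl
  · rcases Nat.eq_zero_or_pos (b + a * s) with h0 | h0
    · rw [h0, pow_zero]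
      exact Nat.one_lt_two_pow (by omega)
    · rw [zero_pow (by omega)]
      positivity
  · have h1 : b + a * s ≤ b * (s + 1) := by
      have := Nat.mul_le_mul_right s hab
      linarith
    calc l ^ (b + a * s) ≤ l ^ (b * (s + 1)) := Nat.pow_le_pow_right hl h1
      _ ≤ (2 ^ l) ^ (b * (s + 1)) := Nat.pow_le_pow_left Nat.lt_two_pow_self.le _
      _ = 2 ^ (l * (b * (s + 1))) := (pow_mul 2 l _).symm
      _ < 2 ^ t := Nat.pow_lt_pow_right (by norm_num) h

theorem inertia_dec {K : IntermediateField ℚ QBar} [NumberField K] (P : Ideal (𝓞 QBar))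
    (τ : Gal(QBar/K)) (hτ : τ ∈ P.inertia Gal(QBar/K)) : τ ∈ dec (K := K) P := by
  intro x
  have h1 : τ • x - x ∈ P := hτ x
  constructor
  · intro h
    have h2 := P.sub_mem h h1
    rwa [sub_sub_cancel] at h2
  · intro h
    have h2 := P.add_mem h1 h
    rwa [sub_add_cancel] at h2

theorem stp {K : IntermediateField ℚ QBar} [NumberField K] {l : ℕ} (hl : l.Prime)
    (hζ : ∃ z : K, IsPrimitiveRoot z l) {H : Type} [Group H] [Finite H] {V : Type}
    [CommGroup V] [Finite V] (hV : ∀ x : V, x ^ l = 1) (hV1 : Nontrivial V)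
    (act : H →* MulAut V) (irr : ∀ U : Subgroup V, (∀ h, ∀ u ∈ U, act h u ∈ U) → U = ⊥ ∨ U = ⊤)
    (hig : ∃ θ : V →* V, ∀ x, ∏ᶠ a : act.range, (a : MulAut V) (θ ((a : MulAut V)⁻¹ x)) = x)
    (φ : Gal(QBar/K) →* H) (hs : Function.Surjective φ) (hφ : FT φ) (Q : DP K QBar)
    (S' S'' : Finset (Pl K)) (hd : Disjoint S' S'')
    (hsp : ∀ v ∈ S' ∪ S'', ∀ σ ∈ dec (K := K) (Q.P v), φ σ = 1)
    (hal : ∀ v ∈ S' ∪ S'', ¬ Above l v) (hc : l * (Nat.card H * (S''.card + 1)) < S'.card) :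
    ∃ κ : Gal(QBar/K) → V, (∀ σ τ, κ (σ * τ) = κ σ * act (φ σ) (κ τ)) ∧
      (∃ E : IntermediateField K QBar, FiniteDimensional K E ∧
        ∀ σ ∈ E.fixingSubgroup, κ σ = 1) ∧
      (∀ x : V, ∃ σ, φ σ = 1 ∧ κ σ = x) ∧
      (∀ v ∈ S'', ∀ σ ∈ dec (K := K) (Q.P v), κ σ = 1) ∧
      ∀ v, v ∉ S' → ¬ Above l v → ∃ x : V, ∀ τ ∈ (Q.P v).inertia Gal(QBar/K),
        κ τ = x / act (φ τ) x := by
  obtain ⟨z, hz⟩ := hζ
  obtain ⟨θV, hθV⟩ := hig
  cases nonempty_fintype act.range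
  let _ := dma act.range
  obtain ⟨θ, hθd⟩ : ∃ θ : Gal(QBar/K) →* act.range, θ = act.rangeRestrict.comp φ := ⟨_, rfl⟩
  have hθa : ∀ σ, (θ σ : MulAut V) = act (φ σ) := fun σ => by rw [hθd]; rfl
  have hθs : Function.Surjective θ := by
    rw [hθd]
    exact act.rangeRestrict_surjective.comp hs
  have hθf : FT θ := by
    rw [hθd]
    exact ft_comp _ _ hφ
  have hθ1 : ∀ σ, φ σ = 1 → θ σ = 1 := fun σ h => by rw [hθd, MonoidHom.comp_apply, h, map_one]
  have hsm : ∀ (a : act.range) (x : Additive V),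
      a • x = Additive.ofMul ((a : MulAut V) x.toMul) := fun _ _ => rfl
  have hM : ∀ m : Additive V, l • m = 0 := fun m => congrArg Additive.ofMul (hV m.toMul)
  have hirr : ∀ N : AddSubgroup (Additive V), (∀ (a : act.range), ∀ m ∈ N, a • m ∈ N) →
      N = ⊥ ∨ N = ⊤ := by
    intro N hN
    rcases irr (AddSubgroup.toSubgroup' N) (fun h u hu => hN ⟨act h, h, rfl⟩ (Additive.ofMul u) hu)
      with h | h
    · left
      apply AddSubgroup.toSubgroup'.injective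
      rw [h, map_bot]
    · right
      apply AddSubgroup.toSubgroup'.injective
      rw [h, map_top]
  have hθM : ∀ m : Additive V, ∑ a : act.range, a • (MonoidHom.toAdditive θV) (a⁻¹ • m) = m := by
    intro m
    apply Additive.toMul.injective
    rw [toMul_sum]
    have h1 := hθV m.toMul
    rw [finprod_eq_prod_of_fintype] at h1
    exact h1
  have hcA : Nat.card act.range ≤ Nat.card H :=
    Nat.card_le_card_of_surjective _ act.rangeRestrict_surjective
  obtain ⟨κ, hA, ⟨E, hE, hE1⟩, hin, hfr, δ, hδ, hδ'⟩ := kap hl hz hM hirr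
    (MonoidHom.toAdditive θV) hθM Q φ hφ θ hθf hθs
    (fun σ hσ => hθ1 σ hσ) S' S'' hd
    (fun v hv σ hσ => hθ1 σ (hsp v (Finset.mem_union_left _ hv) σ hσ))
    (fun v hv σ hσ => hθ1 σ (hsp v (Finset.mem_union_right _ hv) σ hσ)) (stp_card hcA hc)
  obtain ⟨κ', hc1, hc2⟩ := coc (MonoidHom.toAdditive θV) hθM θ hθs κ hA
  have hmul : ∀ σ τ, (κ' (σ * τ)).toMul = (κ' σ).toMul * act (φ σ) (κ' τ).toMul := by
    intro σ τ
    rw [hc1, ← hθa]
    rfl
  have hone : (κ' 1).toMul = 1 := by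
    have h := hmul 1 1
    rw [mul_one, map_one, map_one, MulAut.one_apply, left_eq_mul] at h
    exact h
  refine ⟨fun σ => (κ' σ).toMul, hmul, ⟨E, hE, fun σ hσ => ?_⟩, fun x => ?_, fun v hv σ hσ => ?_,
    fun v hv hv2 => ?_⟩
  · obtain ⟨h1, h2⟩ := hE1 σ hσ
    beta_reduce
    rw [hc2 σ h1, h2]
    rfl
  · obtain ⟨U, hU⟩ : ∃ U : Subgroup V, ∀ x, x ∈ U ↔ ∃ σ, φ σ = 1 ∧ (κ' σ).toMul = x := by
      refine ⟨⟨⟨⟨{x | ∃ σ, φ σ = 1 ∧ (κ' σ).toMul = x}, ?_⟩, ?_⟩, ?_⟩, fun x => Iff.rfl⟩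
      · rintro a b ⟨σ, h1, rfl⟩ ⟨τ, h2, rfl⟩
        refine ⟨σ * τ, by rw [map_mul, h1, h2, mul_one], ?_⟩
        rw [hmul, h1, map_one, MulAut.one_apply]
      · exact ⟨1, map_one _, hone⟩
      · rintro a ⟨σ, h1, rfl⟩
        refine ⟨σ⁻¹, by rw [map_inv, h1, inv_one], ?_⟩
        have h := hmul σ⁻¹ σ
        rw [inv_mul_cancel, hone, map_inv, h1, inv_one, map_one, MulAut.one_apply] at h
        exact eq_inv_of_mul_eq_one_left h.symm
    rcases irr U (by
      intro h u hu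
      obtain ⟨σ, h1, rfl⟩ := (hU _).1 hu
      obtain ⟨g, rfl⟩ := hs h
      refine (hU _).2 ⟨g * σ * g⁻¹, ?_, ?_⟩
      · rw [map_mul, map_mul, map_inv, h1, mul_one, mul_inv_cancel]
      · have h2 : θ σ = 1 := hθ1 σ h1
        have h3 : θ (g * σ * g⁻¹) = 1 := by
          rw [map_mul, map_mul, map_inv, h2, mul_one, mul_inv_cancel]
        rw [hc2 _ h3, hA.eqv g σ h2, hc2 σ h2, ← hθa]
        rfl) with h | h
    · exfalso
      have h1 : (κ' δ).toMul ∈ U := (hU _).2 ⟨δ, hδ, rfl⟩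
      rw [h, Subgroup.mem_bot] at h1
      apply hδ'
      rw [← hc2 δ (hθ1 δ hδ)]
      exact congrArg Additive.ofMul h1
    · exact (hU x).1 (by rw [h]; exact Subgroup.mem_top x)
  · -- the decomposition groups at `S''`
    have hvS : v ∈ S' ∪ S'' := Finset.mem_union_right _ hv
    have hv' : v ∉ S' := fun h => Finset.disjoint_left.1 hd h hv
    obtain ⟨ρ, hρ⟩ : ∃ ρ : Gal(QBar/K) →* SemidirectProduct V H act,
        ∀ σ, ρ σ = ⟨(κ' σ).toMul, φ σ⟩ := by
      refine ⟨⟨⟨fun σ => ⟨(κ' σ).toMul, φ σ⟩, ?_⟩, ?_⟩, fun σ => rfl⟩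
      · exact SemidirectProduct.ext hone (map_one φ)
      · intro σ τ
        exact SemidirectProduct.ext (hmul σ τ) (map_mul φ σ τ)
    obtain ⟨E', hE', hle'⟩ := hφ
    have hρf : FT ρ := by
      refine ⟨E ⊔ E', inferInstance, fun σ hσ => ?_⟩
      have h2 : φ σ = 1 := hle' (IntermediateField.fixingSubgroup_antitone le_sup_right hσ)
      obtain ⟨h3, h4⟩ := hE1 σ (IntermediateField.fixingSubgroup_antitone le_sup_left hσ)
      rw [MonoidHom.mem_ker, hρ, hc2 σ h3, h4, h2]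
      rfl
    have hρ1 : ∀ σ, φ σ = 1 → κ σ = 0 → ρ σ = 1 := by
      intro σ h1 h2
      rw [hρ, hc2 σ (hθ1 σ h1), h2, h1]
      rfl
    obtain ⟨k, hk⟩ := H77.AQ.dec_fr Q v ρ hρf (fun τ hτ => by
      have h1 : φ τ = 1 := hsp v hvS τ (inertia_dec _ τ hτ)
      exact hρ1 τ h1 (hin v hv' (hal v hvS) τ hτ (hθ1 τ h1))) σ hσ
    have h2 : ρ (fr Q v) = 1 :=
      hρ1 _ (hsp v hvS _ (H77.AQ.fr_dec Q v)) (hfr v hv)
    rw [h2, one_pow, hρ] at hk
    exact congrArg SemidirectProduct.left hk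
  · -- inertia
    refine (fun h => ?_) (H35.SN.cob act.range θV hθV
      ((act.comp φ).comp ((Q.P v).inertia Gal(QBar/K)).subtype) (fun i => ⟨φ i, rfl⟩)
      (fun i => (κ' i).toMul) (fun i j => hmul i j) (fun i hi => ?_))
    · obtain ⟨x, hx⟩ := h
      exact ⟨x, fun τ hτ => hx ⟨τ, hτ⟩⟩
    · have h1 : θ i = 1 := Subtype.ext (by rw [hθa]; exact hi)
      beta_reduce
      rw [hc2 _ h1, hin v hv hv2 i i.2 h1]
      rfl

end H51.SN
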